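import Pool.Agent.R276.CP.Stm2
import Pool.Agent.W98.HY.ABV
import Pool.Agent.Y271.CO.Poly

/-!
# Part CP-E: local log-integrability of the resolvent for almost every coupling constant
(Fatou's lemma along the finite sections)
-/

set_option autoImplicit false

namespace Pool.Agent.R276.CP.Fat

open MeasureTheory Set Metric Filter Topology
open Pool.Agent.R276.CP
open scoped InnerProductSpace ENNReal NNReal

/-- `lm` is measurable -/
theorem meas_lm : Measurable lm := by
  unfold lm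
  refine Measurable.ite (measurableSet_singleton 0) measurable_const ?_
  apply Measurable.ennreal_ofReal
  unfold Real.posLog
  exact measurable_const.max (Real.measurable_log.comp measurable_inv)

theorem le_exp_posLog (x : ℝ) : x ≤ Real.exp (Real.posLog x) := by
  rcases le_or_gt x 0 with h | h
  · exact h.trans (Real.exp_pos _).le
  · calc x = Real.exp (Real.log x) := (Real.exp_log h).symm
      _ ≤ _ := Real.exp_le_exp.2 (by unfold Real.posLog; exact le_max_right _ _)

theorem posLog_le_of_le_exp {x c : ℝ} (hx : 0 ≤ x) (hc : 0 ≤ c) (h : x ≤ Real.exp c) :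
    Real.posLog x ≤ c := by
  unfold Real.posLog
  apply max_le hc
  rcases hx.eq_or_lt with h0 | h0
  · rw [← h0, Real.log_zero]
    exact hc
  · rwa [Real.log_le_iff_le_exp h0]

variable {H : Type} [NormedAddCommGroup H] [InnerProductSpace ℂ H] [CompleteSpace H]

/-- limits of operators whose resolvents at a point are bounded along a subsequence -/
theorem res_lim {T : ℕ → (H →L[ℂ] H)} {T0 : H →L[ℂ] H} (hT : Tendsto T atTop (𝓝 T0)) (z : ℂ)
    (M : ℝ) (hf : ∃ᶠ n in atTop, z ∈ resolventSet ℂ (T n) ∧ ‖resolvent (T n) z‖ ≤ M) :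
    z ∈ resolventSet ℂ T0 ∧ ‖resolvent T0 z‖ ≤ M := by
  have hlim : Tendsto (fun n => algebraMap ℂ (H →L[ℂ] H) z - T n) atTop
      (𝓝 (algebraMap ℂ (H →L[ℂ] H) z - T0)) := tendsto_const_nhds.sub hT
  have hM : 0 ≤ M := by
    obtain ⟨n, -, hn⟩ := hf.exists
    exact (norm_nonneg _).trans hn
  have hunit : IsUnit (algebraMap ℂ (H →L[ℂ] H) z - T0) := by
    have hdist : ∀ᶠ n in atTop, ‖T n - T0‖ * (M + 1) < 1 := by
      have h1 : Tendsto (fun n => ‖T n - T0‖ * (M + 1)) atTop (𝓝 (0 * (M + 1))) := by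
        apply Tendsto.mul_const
        have := (hT.sub_const T0).norm
        simpa using this
      rw [zero_mul] at h1
      exact h1.eventually (gt_mem_nhds one_pos)
    obtain ⟨n, ⟨hn1, hn2⟩, hn3⟩ := (hf.and_eventually hdist).exists
    obtain ⟨U, hU⟩ := hn1
    have e1 : resolvent (T n) z = (↑U⁻¹ : H →L[ℂ] H) := by
      rw [resolvent, ← hU, Ring.inverse_unit]
    rw [e1] at hn2
    have e2 : algebraMap ℂ (H →L[ℂ] H) z - T0 =
        (U : H →L[ℂ] H) * (1 - (↑U⁻¹ : H →L[ℂ] H) * (T0 - T n)) := by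
      rw [mul_sub, mul_one, ← mul_assoc, Units.mul_inv, one_mul, hU]
      abel
    rw [e2]
    refine U.isUnit.mul ?_
    apply isUnit_one_sub_of_norm_lt_one
    calc ‖(↑U⁻¹ : H →L[ℂ] H) * (T0 - T n)‖ ≤ ‖(↑U⁻¹ : H →L[ℂ] H)‖ * ‖T0 - T n‖ := norm_mul_le _ _
      _ ≤ (M + 1) * ‖T n - T0‖ := by
          rw [norm_sub_rev]
          gcongr
          linarith
      _ < 1 := by rwa [mul_comm]
  refine ⟨hunit, ?_⟩
  obtain ⟨U, hU⟩ := hunit
  have hc : Tendsto (fun n => resolvent (T n) z) atTop (𝓝 (resolvent T0 z)) := by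
    unfold resolvent
    rw [← hU] at hlim ⊢
    exact (NormedRing.inverse_continuousAt U).tendsto.comp hlim
  exact le_of_tendsto_of_frequently hc.norm (hf.mono fun n h => h.2)

/-- the first bound -/
noncomputable def Phi {n : ℕ} (A : H →L[ℂ] H) (e u : Fin n → H) (p r : ℝ) (q : ℂ × ℂ) : ℝ≥0∞ :=
  (ENNReal.ofReal (Real.posLog ‖resolvent A q.1‖) + 1 +
    ENNReal.ofReal (3 * r ^ p) * ∑ j, ENNReal.ofReal (‖resolvent A q.1 (u j)‖ ^ p)) +
    lm ‖fd (Gm (resolvent A q.1) e u) q.2‖

theorem phi_le (hRES : S_RES) {n : ℕ} (A K : H →L[ℂ] H) (e u : Fin n → H) {p r c : ℝ} {κ z : ℂ}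
    (he : Orthonormal ℂ e) (hp1 : 1 ≤ p) (hp2 : p ≤ 2) (hK : ∀ x, K x = ∑ j, ⟪e j, x⟫_ℂ • u j)
    (hz : z ∈ resolventSet ℂ A) (hκ : ‖κ‖ < r) (h : Phi A e u p r (z, κ) ≤ ENNReal.ofReal c) :
    z ∈ resolventSet ℂ (A + κ • K) ∧ ‖resolvent (A + κ • K) z‖ ≤ Real.exp c := by
  have hr : 0 ≤ r := (norm_nonneg κ).trans hκ.le
  unfold Phi at h
  have hf : fd (Gm (resolvent A z) e u) κ ≠ 0 := by
    intro h0
    simp only [h0] at h
    rw [norm_zero] at h
    unfold lm at h
    simp at h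
  obtain ⟨h1, h2⟩ := hRES H n e u A K p κ z he hp1 hp2 hK hz hf
  refine ⟨h1, ?_⟩
  have hf' : 0 < ‖fd (Gm (resolvent A z) e u) κ‖ := norm_pos_iff.2 hf
  set N := ‖fd (Gm (resolvent A z) e u) κ‖ with hN
  set R := resolvent A z with hR
  have hrp : 0 ≤ r ^ p := Real.rpow_nonneg hr p
  have hbn : 0 ≤ ∑ j, ‖R (u j)‖ ^ p := Finset.sum_nonneg fun j _ => by positivity
  have hle : Real.posLog ‖R‖ + 1 + 3 * r ^ p * ∑ j, ‖R (u j)‖ ^ p + Real.posLog N⁻¹ ≤ c := by
    have e0 : lm N = ENNReal.ofReal (Real.posLog N⁻¹) := by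
      unfold lm
      rw [if_neg hf'.ne']
    rw [e0] at h
    rw [← ENNReal.ofReal_sum_of_nonneg (fun j _ => by positivity), ← ENNReal.ofReal_one,
      ← ENNReal.ofReal_mul (by positivity), ← ENNReal.ofReal_add Real.posLog_nonneg zero_le_one,
      ← ENNReal.ofReal_add (by have := Real.posLog_nonneg (x := ‖R‖); positivity) (by positivity),
      ← ENNReal.ofReal_add (by have := Real.posLog_nonneg (x := ‖R‖); positivity)
        Real.posLog_nonneg] at h
    rcases ENNReal.ofReal_le_ofReal_iff'.1 h with h3 | h3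
    · exact h3
    · exfalso
      have h4 := Real.posLog_nonneg (x := ‖R‖)
      have h5 := Real.posLog_nonneg (x := N⁻¹)
      have h6 : 0 ≤ 3 * r ^ p * ∑ j, ‖R (u j)‖ ^ p := by positivity
      linarith
  have hsum : ∑ j, (‖κ‖ * ‖R (u j)‖) ^ p ≤ r ^ p * ∑ j, ‖R (u j)‖ ^ p := by
    rw [Finset.mul_sum]
    apply Finset.sum_le_sum
    intro j _
    rw [Real.mul_rpow (norm_nonneg _) (norm_nonneg _)]
    gcongr
  have h3 : ‖resolvent (A + κ • K) z‖ ≤ 2 * ‖R‖ * Real.exp (3 * ∑ j, (‖κ‖ * ‖R (u j)‖) ^ p) * N⁻¹ := by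
    rw [← div_eq_mul_inv, le_div_iff₀ hf']
    exact h2
  calc ‖resolvent (A + κ • K) z‖ ≤ 2 * ‖R‖ * Real.exp (3 * ∑ j, (‖κ‖ * ‖R (u j)‖) ^ p) * N⁻¹ := h3
    _ ≤ Real.exp 1 * Real.exp (Real.posLog ‖R‖) * Real.exp (3 * r ^ p * ∑ j, ‖R (u j)‖ ^ p) *
        Real.exp (Real.posLog N⁻¹) := by
        have h4 : (2 : ℝ) ≤ Real.exp 1 := by
          have := Real.add_one_le_exp (1 : ℝ)
          linarith
        have h5 := le_exp_posLog ‖R‖
        have h6 := le_exp_posLog N⁻¹
        have h7 : Real.exp (3 * ∑ j, (‖κ‖ * ‖R (u j)‖) ^ p) ≤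
            Real.exp (3 * r ^ p * ∑ j, ‖R (u j)‖ ^ p) := Real.exp_le_exp.2 (by linarith)
        gcongr
    _ = Real.exp (Real.posLog ‖R‖ + 1 + 3 * r ^ p * ∑ j, ‖R (u j)‖ ^ p + Real.posLog N⁻¹) := by
        rw [Real.exp_add, Real.exp_add, Real.exp_add]
        ring
    _ ≤ Real.exp c := Real.exp_le_exp.2 hle

theorem meas_res (A : H →L[ℂ] H) : StronglyMeasurable (fun z : ℂ => resolvent A z) :=
  Pool.Agent.W98.HY.ABV.meas A

theorem meas_res_v (A : H →L[ℂ] H) (v : H) (p : ℝ) :
    Measurable (fun z : ℂ => ENNReal.ofReal (‖resolvent A z v‖ ^ p)) := by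
  apply Measurable.ennreal_ofReal
  apply Measurable.pow_const
  have h : StronglyMeasurable (fun z : ℂ => resolvent A z v) :=
    ((ContinuousLinearMap.apply ℂ H v).continuous.comp_stronglyMeasurable (meas_res A))
  exact h.norm.measurable

theorem meas_posLog : Measurable Real.posLog := by
  unfold Real.posLog
  exact measurable_const.max Real.measurable_log

omit [CompleteSpace H] in
theorem cont_fd {n : ℕ} (e u : Fin n → H) :
    Continuous (fun q : (H →L[ℂ] H) × ℂ => fd (Gm q.1 e u) q.2) := by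
  have hG : Continuous (fun q : (H →L[ℂ] H) × ℂ => Gm q.1 e u) := by
    apply continuous_matrix
    intro i j
    unfold Gm
    simp only [Matrix.of_apply]
    exact continuous_const.inner ((ContinuousLinearMap.apply ℂ H (u j)).continuous.comp
      continuous_fst)
  unfold fd
  apply Continuous.mul
  · apply Continuous.matrix_det
    exact continuous_const.sub (continuous_snd.smul hG)
  · exact Complex.continuous_exp.comp (continuous_snd.mul hG.matrix_trace)

theorem meas_fd {n : ℕ} (A : H →L[ℂ] H) (e u : Fin n → H) :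
    Measurable (fun q : ℂ × ℂ => ‖fd (Gm (resolvent A q.1) e u) q.2‖) := by
  have h1 : StronglyMeasurable (fun q : ℂ × ℂ => (resolvent A q.1, q.2)) :=
    ((meas_res A).comp_measurable measurable_fst).prodMk measurable_snd.stronglyMeasurable
  have h2 := Continuous.comp_stronglyMeasurable (cont_fd e u) h1
  exact h2.norm.measurable

theorem meas_Phi {n : ℕ} (A : H →L[ℂ] H) (e u : Fin n → H) (p r : ℝ) :
    Measurable (Phi A e u p r) := by
  unfold Phi
  refine Measurable.fun_add ?_ ?_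
  · refine Measurable.fun_add ?_ ?_
    · apply Measurable.add_const
      apply Measurable.ennreal_ofReal
      exact meas_posLog.comp ((meas_res A).norm.measurable.comp measurable_fst)
    · apply Measurable.const_mul
      apply Finset.measurable_sum
      intro j _
      exact (meas_res_v A (u j) p).comp measurable_fst
  · exact meas_lm.comp (meas_fd A e u)

omit [CompleteSpace H] in
/-- the integral over the coupling constant -/
theorem int_kappa (hUP : S_UP) {m : Measure ℂ} {r p : ℝ} (hr : 0 < r) (hp1 : 1 ≤ p) (hp2 : p ≤ 2)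
    {C : ℝ≥0} (hC : ∀ (q : Polynomial ℂ) (τ : ℂ) (M : ℝ), q.eval 0 = 1 → 0 ≤ M →
    (∀ κ : ℂ, ‖κ‖ ≤ 6 * r → ‖q.eval κ * Complex.exp (κ * τ)‖ ≤ Real.exp M) →
    ∫⁻ κ in ball (0:ℂ) r, lm ‖q.eval κ * Complex.exp (κ * τ)‖ ∂m ≤ C * ENNReal.ofReal (M + 1))
    {n : ℕ} (A : H →L[ℂ] H) (e u : Fin n → H) (he : Orthonormal ℂ e) (z : ℂ) :
    ∫⁻ κ in ball (0:ℂ) r, Phi A e u p r (z, κ) ∂m ≤
      (ENNReal.ofReal (Real.posLog ‖resolvent A z‖) + 1 +
        ENNReal.ofReal (3 * r ^ p) * ∑ j, ENNReal.ofReal (‖resolvent A z (u j)‖ ^ p)) *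
          m (ball 0 r) +
      C * (ENNReal.ofReal (3 * (6 * r) ^ p) * ∑ j, ENNReal.ofReal (‖resolvent A z (u j)‖ ^ p) + 1)
      := by
  unfold Phi
  simp only
  rw [lintegral_add_left measurable_const, lintegral_const, Measure.restrict_apply_univ]
  gcongr
  have hq : ∀ κ : ℂ, fd (Gm (resolvent A z) e u) κ =
      (Gm (resolvent A z) e u).charpolyRev.eval κ *
        Complex.exp (κ * (Gm (resolvent A z) e u).trace) := by
    intro κ
    rw [Pool.Agent.Y271.CO.eval_rev]
    rfl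
  simp only [hq]
  have hb : 0 ≤ ∑ j, ‖resolvent A z (u j)‖ ^ p := Finset.sum_nonneg fun j _ => by positivity
  refine (hC _ _ (3 * (6 * r) ^ p * ∑ j, ‖resolvent A z (u j)‖ ^ p) ?_ (by positivity) ?_).trans ?_
  · exact Matrix.eval_charpolyRev
  · intro κ hκ
    rw [← hq]
    refine (hUP H n e u (resolvent A z) p κ he hp1 hp2).trans (Real.exp_le_exp.2 ?_)
    rw [mul_assoc]
    gcongr
    rw [Finset.mul_sum]
    apply Finset.sum_le_sum
    intro j _
    rw [Real.mul_rpow (norm_nonneg _) (norm_nonneg _)]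
    gcongr
  · rw [ENNReal.ofReal_add (by positivity) zero_le_one, ENNReal.ofReal_one,
      ENNReal.ofReal_mul (by positivity),
      ENNReal.ofReal_sum_of_nonneg (fun j _ => by positivity)]

theorem main (hUP : S_UP) (hRES : S_RES) (hPOT : S_POT) : S_FAT := by
  intro H _ _ _ A K p hp1 hp2 hS R hnull hint hloc m hm r hr
  obtain ⟨k, e, u, S, Kn, he, hu, hKn, hlim⟩ := hS
  obtain ⟨C0, hC0⟩ := hloc
  obtain ⟨C1, hC1⟩ := hPOT m hm r hr
  obtain ⟨C2, hC2, -⟩ := hm r
  set B := ball (0:ℂ) R with hB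
  obtain ⟨b, hbdef⟩ : ∃ b : ℕ → ℂ → ℝ≥0∞,
      b = fun n z => ∑ j, ENNReal.ofReal (‖resolvent A z (u n j)‖ ^ p) := ⟨_, rfl⟩
  have hbm : ∀ n, Measurable (b n) := by
    intro n
    rw [hbdef]
    apply Finset.measurable_sum
    intro j _
    exact meas_res_v A (u n j) p
  have hb : ∀ n, ∫⁻ z in B, b n z ≤ C0 * ENNReal.ofReal S := by
    intro n
    rw [hbdef]
    simp only
    rw [lintegral_finsetSum _ (fun j _ => meas_res_v A (u n j) p)]
    calc _ ≤ ∑ j, C0 * ENNReal.ofReal (‖u n j‖ ^ p) := Finset.sum_le_sum fun j _ => hC0 _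
      _ = C0 * ENNReal.ofReal (∑ j, ‖u n j‖ ^ p) := by
          rw [← Finset.mul_sum, ENNReal.ofReal_sum_of_nonneg (fun j _ => by positivity)]
      _ ≤ _ := by
          gcongr
          exact hu n
  have hfin : IsFiniteMeasure (m.restrict (ball (0:ℂ) r)) :=
    ⟨by rw [Measure.restrict_apply_univ]; exact hC2.trans_lt ENNReal.coe_lt_top⟩
  have hBfin : volume B < ⊤ := measure_ball_lt_top
  have hfinB : IsFiniteMeasure ((volume : Measure ℂ).restrict B) :=
    ⟨by rw [Measure.restrict_apply_univ]; exact hBfin⟩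
  have hlm : Measurable fun z => ENNReal.ofReal (Real.posLog ‖resolvent A z‖) :=
    (meas_posLog.comp (meas_res A).norm.measurable).ennreal_ofReal
  obtain ⟨I0, hI0d⟩ : ∃ I0 : ℝ≥0∞, I0 = ∫⁻ z in B, ENNReal.ofReal (Real.posLog ‖resolvent A z‖) :=
    ⟨_, rfl⟩
  have hI0 : I0 < ⊤ := by
    have h1 := hint.2
    rw [hasFiniteIntegral_iff_ofReal (ae_of_all _ fun z => Real.posLog_nonneg)] at h1
    rw [hI0d]
    exact h1
  obtain ⟨T, hTd⟩ : ∃ T : ℝ≥0∞,
      T = (I0 + volume B + ENNReal.ofReal (3 * r ^ p) * (C0 * ENNReal.ofReal S)) * C2 +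
        C1 * (ENNReal.ofReal (3 * (6 * r) ^ p) * (C0 * ENNReal.ofReal S) + volume B) := ⟨_, rfl⟩
  have hT : T < ⊤ := by
    rw [hTd]
    have h1 : (C0 : ℝ≥0∞) * ENNReal.ofReal S < ⊤ :=
      ENNReal.mul_lt_top ENNReal.coe_lt_top ENNReal.ofReal_lt_top
    refine ENNReal.add_lt_top.2 ⟨ENNReal.mul_lt_top (ENNReal.add_lt_top.2
      ⟨ENNReal.add_lt_top.2 ⟨hI0, hBfin⟩, ENNReal.mul_lt_top ENNReal.ofReal_lt_top h1⟩)
      ENNReal.coe_lt_top, ENNReal.mul_lt_top ENNReal.coe_lt_top (ENNReal.add_lt_top.2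
        ⟨ENNReal.mul_lt_top ENNReal.ofReal_lt_top h1, hBfin⟩)⟩
  have hPhi : ∀ n, ∫⁻ q, Phi A (e n) (u n) p r q
      ∂(((volume : Measure ℂ).restrict B).prod (m.restrict (ball (0:ℂ) r))) ≤ T := by
    intro n
    rw [lintegral_prod _ (meas_Phi A (e n) (u n) p r).aemeasurable]
    calc ∫⁻ z in B, ∫⁻ κ in ball (0:ℂ) r, Phi A (e n) (u n) p r (z, κ) ∂m
        ≤ ∫⁻ z in B, ((ENNReal.ofReal (Real.posLog ‖resolvent A z‖) + 1 +
            ENNReal.ofReal (3 * r ^ p) * b n z) * C2 +
            C1 * (ENNReal.ofReal (3 * (6 * r) ^ p) * b n z + 1)) := by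
          apply lintegral_mono
          intro z
          refine (int_kappa hUP hr hp1 hp2 hC1 A (e n) (u n) (he n) z).trans ?_
          simp only [hbdef]
          gcongr
      _ = (I0 + volume B + ENNReal.ofReal (3 * r ^ p) * ∫⁻ z in B, b n z) * C2 +
            C1 * (ENNReal.ofReal (3 * (6 * r) ^ p) * (∫⁻ z in B, b n z) + volume B) := by
          have hm1 : Measurable fun z => ENNReal.ofReal (3 * r ^ p) * b n z :=
            (hbm n).const_mul _
          have hm2 : Measurable fun z => ENNReal.ofReal (3 * (6 * r) ^ p) * b n z :=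
            (hbm n).const_mul _
          have hm3 : Measurable fun z => ENNReal.ofReal (Real.posLog ‖resolvent A z‖) + 1 :=
            hlm.add_const 1
          have hm4 : Measurable fun z => ENNReal.ofReal (Real.posLog ‖resolvent A z‖) + 1 +
              ENNReal.ofReal (3 * r ^ p) * b n z := hm3.add hm1
          have hm5 : Measurable fun z => ENNReal.ofReal (3 * (6 * r) ^ p) * b n z + 1 :=
            hm2.add_const 1
          rw [lintegral_add_left (hm4.mul_const _), lintegral_mul_const _ hm4,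
            lintegral_const_mul _ hm5, lintegral_add_left hm3, lintegral_add_left hlm,
            lintegral_const_mul _ (hbm n), lintegral_add_left hm2, lintegral_const_mul _ (hbm n),
            lintegral_one, Measure.restrict_apply_univ, ← hI0d]
      _ ≤ T := by
          rw [hTd]
          gcongr
          · exact hb n
          · exact hb n
  obtain ⟨L, hLd⟩ : ∃ L : ℂ × ℂ → ℝ≥0∞,
      L = fun q => liminf (fun n => Phi A (e n) (u n) p r q) atTop := ⟨_, rfl⟩
  have hLm : Measurable L := by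
    rw [hLd]
    exact Measurable.liminf fun n => meas_Phi A (e n) (u n) p r
  have hL : ∫⁻ q, L q ∂(((volume : Measure ℂ).restrict B).prod (m.restrict (ball (0:ℂ) r))) ≤ T := by
    rw [hLd]
    refine (lintegral_liminf_le fun n => meas_Phi A (e n) (u n) p r).trans ?_
    exact liminf_le_of_frequently_le' (Frequently.of_forall hPhi)
  have hL2 : ∀ᵐ κ ∂(m.restrict (ball (0:ℂ) r)), ∫⁻ z in B, L (z, κ) < ⊤ := by
    rw [lintegral_prod_symm _ hLm.aemeasurable] at hL
    refine ae_lt_top ?_ (hL.trans_lt hT).ne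
    exact hLm.lintegral_prod_left'
  filter_upwards [hL2, ae_restrict_mem measurableSet_ball] with κ h1 h2
  have hz : ∀ᵐ z ∂((volume : Measure ℂ).restrict B), z ∈ resolventSet ℂ (A + κ • K) ∧
      ENNReal.ofReal (Real.posLog ‖resolvent (A + κ • K) z‖) ≤ L (z, κ) := by
    have h3 : ∀ᵐ z ∂((volume : Measure ℂ).restrict B), L (z, κ) < ⊤ :=
      ae_lt_top (hLm.comp measurable_prodMk_right) h1.ne
    have h4 : ∀ᵐ z ∂((volume : Measure ℂ).restrict B), z ∈ resolventSet ℂ A := by
      rw [ae_iff]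
      have h5 : ((volume : Measure ℂ).restrict B) (spectrum ℂ A) = 0 := by
        rw [Measure.restrict_apply' measurableSet_ball]
        exact hnull
      exact h5
    filter_upwards [h3, h4] with z h3 h4
    have key : ∀ c : ℝ, (L (z, κ)).toReal < c → z ∈ resolventSet ℂ (A + κ • K) ∧
        ‖resolvent (A + κ • K) z‖ ≤ Real.exp c := by
      intro c hc
      apply res_lim (T := fun n => A + κ • Kn n) (tendsto_const_nhds.add (hlim.const_smul κ)) z
      have h5 : L (z, κ) < ENNReal.ofReal c := (ENNReal.lt_ofReal_iff_toReal_lt h3.ne).2 hc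
      rw [hLd] at h5
      have h6 : ∃ᶠ n in atTop, Phi A (e n) (u n) p r (z, κ) < ENNReal.ofReal c :=
        frequently_lt_of_liminf_lt (by isBoundedDefault) h5
      exact h6.mono fun n hn => phi_le hRES A (Kn n) (e n) (u n) (he n) hp1 hp2 (hKn n) h4
        (by simpa using h2) hn.le
    refine ⟨(key _ (lt_add_one _)).1, ?_⟩
    rw [ENNReal.ofReal_le_iff_le_toReal h3.ne]
    apply le_of_forall_gt_imp_ge_of_dense
    intro c hc
    exact posLog_le_of_le_exp (norm_nonneg _) (ENNReal.toReal_nonneg.trans hc.le) (key c hc).2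
  constructor
  · have h7 : ((volume : Measure ℂ).restrict B) (spectrum ℂ (A + κ • K)) = 0 := by
      have h8 := hz.mono fun z h => h.1
      rw [ae_iff] at h8
      exact h8
    rwa [Measure.restrict_apply' measurableSet_ball] at h7
  · refine ⟨(meas_posLog.comp (meas_res (A + κ • K)).norm.measurable).aestronglyMeasurable, ?_⟩
    rw [hasFiniteIntegral_iff_ofReal (ae_of_all _ fun z => Real.posLog_nonneg)]
    exact (lintegral_mono_ae (hz.mono fun z h => h.2)).trans_lt h1

end Pool.Agent.R276.CP.Fat
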