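import Pool.Agent.R276.CP.Stm2
import Pool.Agent.Y271.CO.Cor
import Pool.Agent.Y891.NK.AREA
import Pool.Agent.W610.HY.Reduct

/-!
# Project CP, assembly
-/

set_option autoImplicit false

namespace Pool.Agent.R276.CP.Fin

open MeasureTheory Set Metric Filter Topology
open scoped InnerProductSpace ENNReal NNReal

variable {H : Type} [NormedAddCommGroup H] [InnerProductSpace ℂ H] [CompleteSpace H]

/-- the resolvent is locally log-integrable and the spectrum is a null set -/
def LogInt (T : H →L[ℂ] H) : Prop :=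
  ∀ R : ℕ, volume (spectrum ℂ T ∩ ball 0 (R : ℝ)) = 0 ∧
    IntegrableOn (fun z : ℂ => Real.posLog ‖resolvent T z‖) (ball 0 (R : ℝ))

/-- the Schatten class with exponent `p ≤ 2` -/
def Schatten (K : H →L[ℂ] H) (p : ℝ) : Prop :=
  ∃ (ι : Type) (b : HilbertBasis ι ℂ H), Summable fun i => ‖K (b i)‖ ^ p

omit [CompleteSpace H] in
theorem Schatten.mono {K : H →L[ℂ] H} {p q : ℝ} (h : Schatten K p) (hp : 0 < p) (hpq : p ≤ q) :
    Schatten K q := by
  obtain ⟨ι, b, hb⟩ := h
  refine ⟨ι, b, ?_⟩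
  refine Summable.of_norm_bounded_eventually hb ?_
  have h1 := hb.tendsto_cofinite_zero
  have h2 : ∀ᶠ i in cofinite, ‖K (b i)‖ ^ p < 1 := h1.eventually (gt_mem_nhds one_pos)
  filter_upwards [h2] with i hi
  have h3 : ‖K (b i)‖ ≤ 1 := by
    by_contra h4
    have h5 := Real.one_lt_rpow (not_le.1 h4) hp
    linarith
  rw [Real.norm_of_nonneg (Real.rpow_nonneg (norm_nonneg _) _)]
  rcases (norm_nonneg (K (b i))).eq_or_lt with h4 | h4
  · rw [← h4, Real.zero_rpow (by linarith), Real.zero_rpow hp.ne']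
  · exact Real.rpow_le_rpow_of_exponent_ge h4 h3 hpq

theorem trivial_logInt [Subsingleton H] (T : H →L[ℂ] H) : LogInt T := by
  intro R
  constructor
  · have : spectrum ℂ T = ∅ := by
      have := spectrum.of_subsingleton (R := ℂ) T
      exact this
    rw [this]; simp
  · have h : (fun z : ℂ => Real.posLog ‖resolvent T z‖) = fun _ => 0 := by
      funext z
      have : resolvent T z = 0 := Subsingleton.elim _ _
      rw [this]; simp
    rw [h]
    exact integrableOn_zero

theorem ae_logInt (hFAT : S_FAT) (hSEC : S_SEC) (hLOC : S_LOC) (N K : H →L[ℂ] H)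
    (hN : IsStarNormal N) (ht : Thin (spectrum ℂ N)) (p : ℝ) (hp0 : 0 < p) (hp2 : p < 2)
    (hK : Schatten K p) (m : Measure ℂ) (hm : LogBd m) : ∀ᵐ κ ∂m, LogInt (N + κ • K) := by
  rcases subsingleton_or_nontrivial H with hH | hH
  · exact Eventually.of_forall fun κ => trivial_logInt _
  obtain ⟨q, hq⟩ : ∃ q, q = max p 1 := ⟨_, rfl⟩
  have hq1 : 1 ≤ q := hq ▸ le_max_right _ _
  have hq2 : q < 2 := hq ▸ max_lt hp2 (by norm_num)
  have hKq : Schatten K q := hK.mono hp0 (hq ▸ le_max_left _ _)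
  have hS : Sections K q := hSEC H K q (by linarith) hq2.le hKq
  have key : ∀ r R : ℕ, ∀ᵐ κ ∂(m.restrict (ball (0:ℂ) ((r : ℝ) + 1))),
      volume (spectrum ℂ (N + κ • K) ∩ ball 0 (R : ℝ)) = 0 ∧
      IntegrableOn (fun z : ℂ => Real.posLog ‖resolvent (N + κ • K) z‖) (ball 0 (R : ℝ)) := by
    intro r R
    obtain ⟨l1, l2⟩ := Pool.Agent.Y271.CO.log_int N hN ht R
    exact hFAT H N K q hq1 hq2.le hS R l1 l2 (hLOC H N hN ht q hq1 hq2 R) m hm (r + 1)
      (by positivity)
  have key2 : ∀ R : ℕ, ∀ᵐ κ ∂m, 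
      volume (spectrum ℂ (N + κ • K) ∩ ball 0 (R : ℝ)) = 0 ∧
      IntegrableOn (fun z : ℂ => Real.posLog ‖resolvent (N + κ • K) z‖) (ball 0 (R : ℝ)) := by
    intro R
    have h1 := (ae_restrict_iUnion_iff (μ := m) (fun r : ℕ => ball (0:ℂ) ((r : ℝ) + 1))
      (fun κ => volume (spectrum ℂ (N + κ • K) ∩ ball 0 (R : ℝ)) = 0 ∧
      IntegrableOn (fun z : ℂ => Real.posLog ‖resolvent (N + κ • K) z‖) (ball 0 (R : ℝ)))).2
      (fun r => key r R)
    have h2 : (⋃ r : ℕ, ball (0:ℂ) ((r : ℝ) + 1)) = univ := by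
      rw [eq_univ_iff_forall]
      intro z
      obtain ⟨r, hr⟩ := exists_nat_gt ‖z‖
      exact mem_iUnion.2 ⟨r, mem_ball_zero_iff.2 (by linarith)⟩
    rwa [h2, Measure.restrict_univ] at h1
  exact ae_all_iff.2 key2

theorem compact_of_sections {K : H →L[ℂ] H} {p : ℝ} (h : Sections K p) :
    IsCompactOperator K ∧ IsCompactOperator (ContinuousLinearMap.adjoint K) := by
  obtain ⟨k, e, u, S, Kn, -, -, h3, h4⟩ := h
  have h5 : ∀ n, FiniteDimensional ℂ (LinearMap.range ((Kn n : H →L[ℂ] H) : H →ₗ[ℂ] H)) := by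
    intro n
    haveI : FiniteDimensional ℂ (Submodule.span ℂ (Set.range (u n))) :=
      FiniteDimensional.span_of_finite ℂ (Set.finite_range _)
    have : LinearMap.range ((Kn n : H →L[ℂ] H) : H →ₗ[ℂ] H) ≤
        Submodule.span ℂ (Set.range (u n)) := by
      rintro _ ⟨x, rfl⟩
      rw [ContinuousLinearMap.coe_coe, h3]
      exact Submodule.sum_mem _ fun j _ =>
        Submodule.smul_mem _ _ (Submodule.subset_span ⟨j, rfl⟩)
    exact Submodule.finiteDimensional_of_le this
  have h6 : ∀ n x, (ContinuousLinearMap.adjoint (Kn n)) x = ∑ j, ⟪u n j, x⟫_ℂ • e n j := by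
    intro n x
    refine ext_inner_right ℂ fun y => ?_
    rw [ContinuousLinearMap.adjoint_inner_left, h3, inner_sum, sum_inner]
    refine Finset.sum_congr rfl fun j _ => ?_
    rw [inner_smul_right, inner_smul_left, inner_conj_symm, mul_comm]
  have h7 : ∀ n, FiniteDimensional ℂ
      (LinearMap.range ((ContinuousLinearMap.adjoint (Kn n) : H →L[ℂ] H) : H →ₗ[ℂ] H)) := by
    intro n
    haveI : FiniteDimensional ℂ (Submodule.span ℂ (Set.range (e n))) :=
      FiniteDimensional.span_of_finite ℂ (Set.finite_range _)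
    have : LinearMap.range ((ContinuousLinearMap.adjoint (Kn n) : H →L[ℂ] H) : H →ₗ[ℂ] H) ≤
        Submodule.span ℂ (Set.range (e n)) := by
      rintro _ ⟨x, rfl⟩
      rw [ContinuousLinearMap.coe_coe, h6]
      exact Submodule.sum_mem _ fun j _ =>
        Submodule.smul_mem _ _ (Submodule.subset_span ⟨j, rfl⟩)
    exact Submodule.finiteDimensional_of_le this
  constructor
  · exact isCompactOperator_of_tendsto h4 (Eventually.of_forall fun n =>
      Pool.Agent.Y271.CO.finrank_compact _ (h5 n))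
  · have h8 : Tendsto (fun n => ContinuousLinearMap.adjoint (Kn n)) atTop
        (𝓝 (ContinuousLinearMap.adjoint K)) :=
      (ContinuousLinearMap.adjoint (𝕜 := ℂ) (E := H) (F := H)).continuous.continuousAt.tendsto.comp h4
    exact isCompactOperator_of_tendsto h8 (Eventually.of_forall fun n =>
      Pool.Agent.Y271.CO.finrank_compact _ (h7 n))

/-- scalar or with a nontrivial closed hyperinvariant subspace -/
theorem hyper (N L : H →L[ℂ] H) (hN : IsStarNormal N) (hL : IsCompactOperator L)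
    (h : LogInt (N + L)) :
    (∃ c : ℂ, N + L = c • (1 : H →L[ℂ] H)) ∨
    ∃ V : Submodule ℂ H, IsClosed (V : Set H) ∧ V ≠ ⊥ ∧ V ≠ ⊤ ∧
      ∀ Q : H →L[ℂ] H, Q * (N + L) = (N + L) * Q → ∀ v ∈ V, Q v ∈ V := by
  rcases subsingleton_or_nontrivial H with hH | hH
  · exact Or.inl ⟨0, Subsingleton.elim _ _⟩
  obtain ⟨R, hR⟩ := exists_nat_gt ‖N + L‖
  obtain ⟨g1, g2⟩ := h R
  have hsub : spectrum ℂ (N + L) ⊆ ball 0 (R : ℝ) := by
    intro z hz
    rw [mem_ball_zero_iff]
    exact (spectrum.norm_le_norm_of_mem hz).trans_lt hR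
  by_cases hn : (spectrum ℂ (N + L)).Nontrivial
  · refine Or.inr (Pool.Agent.W610.HY.Cor.glob Pool.Agent.W610.HY.Reduct.loc
      Pool.Agent.W19.HY.RES.main Pool.Agent.W610.HY.Fin.hMEAS (N + L) (ball 0 (R : ℝ))
      isOpen_ball ?_ g1 g2)
    rwa [inter_eq_left.2 hsub]
  · obtain ⟨c, hc⟩ := spectrum.nonempty (N + L)
    have hsc : spectrum ℂ (N + L) = {c} := by
      rw [not_nontrivial_iff] at hn
      exact hn.eq_singleton_of_mem hc
    have h3 := Pool.Agent.W806.HI.main H N L c hN hL hsc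
    have h4 : IsCompactOperator (N + L - c • (1 : H →L[ℂ] H)) := by
      have h5 := h3.add hL
      have e : N + L - c • (1 : H →L[ℂ] H) = (N - c • (1 : H →L[ℂ] H)) + L := by abel
      rw [e]
      exact h5
    by_cases h2 : ∃ a : ℂ, N + L = a • (1 : H →L[ℂ] H)
    · exact Or.inl h2
    right
    have h6 : ¬ Pool.Agent.W402.HI.IsScalar (N + L - c • (1 : H →L[ℂ] H)) := by
      rintro ⟨a, ha⟩
      apply h2
      refine ⟨a + c, ?_⟩
      rw [add_smul, ← ha]
      abel
    obtain ⟨V, v1, v2, v3, v4⟩ := Pool.Agent.W577.HI.G1.main H _ h4 h6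
    refine ⟨V, v1, v2, v3, fun Q hQ v hv => v4 Q ?_ v hv⟩
    rw [mul_sub, sub_mul, hQ, mul_smul_comm, smul_mul_assoc, mul_one, one_mul]

theorem clm_comp_left (A B : H →L[ℂ] H) (hB : IsCompactOperator B) : IsCompactOperator (A * B) := by
  have h : ((A * B : H →L[ℂ] H) : H → H) = A ∘ B := by ext x; rfl
  rw [h]
  exact hB.clm_comp A

theorem clm_comp_right (A B : H →L[ℂ] H) (hA : IsCompactOperator A) :
    IsCompactOperator (A * B) := by
  have h : ((A * B : H →L[ℂ] H) : H → H) = A ∘ B := by ext x; rfl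
  rw [h]
  exact hA.comp_clm B

theorem reductive (N L : H →L[ℂ] H) (hN : IsStarNormal N) (hL : IsCompactOperator L)
    (hL' : IsCompactOperator (ContinuousLinearMap.adjoint L)) (h : LogInt (N + L))
    (hred : Pool.Agent.W706.HIR.Reductive (N + L)) : IsStarNormal (N + L) := by
  obtain ⟨R, hR⟩ := exists_nat_gt ‖N + L‖
  obtain ⟨g1, g2⟩ := h R
  have hsub : spectrum ℂ (N + L) ⊆ ball 0 (R : ℝ) := by
    intro z hz
    rw [mem_ball_zero_iff]
    rcases subsingleton_or_nontrivial H with hH | hH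
    · have h1 : spectrum ℂ (N + L) = ∅ := spectrum.of_subsingleton (R := ℂ) (N + L)
      rw [h1] at hz
      exact absurd hz (notMem_empty _)
    exact (spectrum.norm_le_norm_of_mem hz).trans_lt hR
  rw [inter_eq_left.2 hsub] at g1
  refine Pool.Agent.W610.HY.Reduct.normal (N + L) hred ?_ (ball 0 (R : ℝ)) isOpen_ball hsub g1 g2
  have e : Pool.Agent.W706.HIR.sc (N + L) =
      (ContinuousLinearMap.adjoint N * L - L * ContinuousLinearMap.adjoint N) +
      (ContinuousLinearMap.adjoint L * N - N * ContinuousLinearMap.adjoint L) +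
      (ContinuousLinearMap.adjoint L * L - L * ContinuousLinearMap.adjoint L) := by
    have h1 : ContinuousLinearMap.adjoint N * N = N * ContinuousLinearMap.adjoint N := by
      have := hN.star_comm_self
      rwa [Commute, SemiconjBy, ContinuousLinearMap.star_eq_adjoint] at this
    unfold Pool.Agent.W706.HIR.sc
    rw [map_add, add_mul, mul_add, mul_add, add_mul, mul_add, mul_add, h1]
    abel
  rw [e]
  have c1 := (clm_comp_left (ContinuousLinearMap.adjoint N) L hL).sub
    (clm_comp_right L (ContinuousLinearMap.adjoint N) hL)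
  have c2 := (clm_comp_right (ContinuousLinearMap.adjoint L) N hL').sub
    (clm_comp_left N (ContinuousLinearMap.adjoint L) hL')
  have c3 := (clm_comp_left (ContinuousLinearMap.adjoint L) L hL).sub
    (clm_comp_left L (ContinuousLinearMap.adjoint L) hL')
  exact (c1.add c2).add c3

end Pool.Agent.R276.CP.Fin
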