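import Pool.Agent.R276.CP.Stm
import Pool.Agent.H940R3.VD.Lin

/-!
# Hadamard's inequality for the columns
-/

set_option autoImplicit false

open Matrix
open scoped ComplexOrder

namespace Pool.Agent.R276.CP.Had

open Pool.Agent.R276.CP

theorem main : S_HAD := by
  intro ι _ _ M
  have h := Pool.Agent.H940R3.VD.hadamard (H := Mᴴ * M) (Matrix.posSemidef_conjTranspose_mul_self M)
  have e1 : (Mᴴ * M).det.re = ‖M.det‖ ^ 2 := by
    rw [det_mul, det_conjTranspose, ← Complex.normSq_eq_norm_sq]
    have : star M.det * M.det = (Complex.normSq M.det : ℂ) := by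
      rw [Complex.normSq_eq_conj_mul_self]; rfl
    rw [this, Complex.ofReal_re]
  have e2 : ∀ j, ((Mᴴ * M) j j).re = ∑ i, ‖M i j‖ ^ 2 := by
    intro j
    rw [mul_apply, Complex.re_sum]
    refine Finset.sum_congr rfl fun i _ => ?_
    rw [conjTranspose_apply, ← Complex.normSq_eq_norm_sq]
    have : star (M i j) * M i j = (Complex.normSq (M i j) : ℂ) := by
      rw [Complex.normSq_eq_conj_mul_self]; rfl
    rw [this, Complex.ofReal_re]
  rw [e1] at h
  exact h.trans (le_of_eq (Finset.prod_congr rfl fun j _ => e2 j))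

end Pool.Agent.R276.CP.Had
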