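import Pool.Agent.R276.CP.Stm
import Pool.Agent.Y25.NK.Spn1

/-!
# Module CP-D: local integrability of `(z - N)⁻¹ u`
-/

set_option autoImplicit false

namespace Pool.Agent.R276.CP.Loc

open MeasureTheory Set Metric Filter Topology
open scoped InnerProductSpace ENNReal NNReal

/-- the weights of the dyadic layers -/
noncomputable def wt (s : ℝ) (k : ℕ) : ℝ≥0∞ := ENNReal.ofReal (((1 / 2 : ℝ) ^ (k + 1)) ^ (-s))

/-- the sum over the dyadic layers -/
noncomputable def KK (C ε s : ℝ) : ℝ≥0∞ :=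
  ∑' k : ℕ, wt s k * ENNReal.ofReal (C * ((1 / 2 : ℝ) ^ k) ^ ε)

lemma half_pow (m : ℕ) : (1 / 2 : ℝ) ^ m = (2 : ℝ) ^ (-(m : ℝ)) := by
  rw [Real.rpow_neg (by norm_num), Real.rpow_natCast, one_div, inv_pow]

lemma KK_lt_top {C ε s : ℝ} (h : s < ε) : KK C ε s < ⊤ := by
  unfold KK
  have hterm : ∀ k : ℕ, wt s k * ENNReal.ofReal (C * ((1 / 2 : ℝ) ^ k) ^ ε) =
      ENNReal.ofReal (C * 2 ^ s) * ENNReal.ofReal ((2 : ℝ) ^ (s - ε)) ^ k := by
    intro k
    unfold wt
    rw [← ENNReal.ofReal_pow (by positivity), ← ENNReal.ofReal_mul (by positivity),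
      ← ENNReal.ofReal_mul' (by positivity)]
    congr 1
    rw [half_pow, half_pow, ← Real.rpow_mul (by norm_num), ← Real.rpow_mul (by norm_num),
      ← Real.rpow_natCast, ← Real.rpow_mul (by norm_num)]
    have e1 : (2 : ℝ) ^ (-((k + 1 : ℕ) : ℝ) * -s) * (C * 2 ^ (-(k : ℝ) * ε)) =
        C * (2 ^ (-((k + 1 : ℕ) : ℝ) * -s) * 2 ^ (-(k : ℝ) * ε)) := by ring
    have e2 : C * 2 ^ s * 2 ^ ((s - ε) * (k : ℝ)) = C * ((2 : ℝ) ^ s * 2 ^ ((s - ε) * (k : ℝ))) := by
      ring
    rw [e1, e2, ← Real.rpow_add (by norm_num), ← Real.rpow_add (by norm_num)]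
    congr 2
    push_cast
    ring
  simp only [hterm]
  rw [ENNReal.tsum_mul_left, ENNReal.tsum_geometric]
  apply ENNReal.mul_lt_top ENNReal.ofReal_lt_top
  rw [ENNReal.inv_lt_top, tsub_pos_iff_lt, ENNReal.ofReal_lt_one]
  exact Real.rpow_lt_one_of_one_lt_of_neg (by norm_num) (by linarith)

lemma layer (μ : Measure ℂ) (D : ℂ → ℝ) (hD : Measurable D) (C ε s : ℝ) (hs : 0 ≤ s)
    (h : ∀ δ : ℝ, 0 < δ → δ ≤ 1 → μ {z | D z ≤ δ} ≤ ENNReal.ofReal (C * δ ^ ε)) :
    ∫⁻ z, (ENNReal.ofReal (D z)) ^ (-s) ∂μ ≤ μ univ + KK C ε s := by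
  have hwt1 : ∀ k, 1 ≤ wt s k := by
    intro k
    unfold wt
    rw [ENNReal.one_le_ofReal, Real.rpow_neg (by positivity)]
    rw [one_le_inv₀ (by positivity)]
    apply Real.rpow_le_one (by positivity) _ hs
    exact pow_le_one₀ (by norm_num) (by norm_num)
  have hpt : ∀ z, (ENNReal.ofReal (D z)) ^ (-s) ≤
      1 + ∑' k : ℕ, ({z | D z ≤ (1 / 2 : ℝ) ^ k} : Set ℂ).indicator (fun _ => wt s k) z := by
    intro z
    rcases le_or_gt (D z) 0 with h0 | h0
    · have : ∑' k : ℕ, ({z | D z ≤ (1 / 2 : ℝ) ^ k} : Set ℂ).indicator (fun _ => wt s k) z = ⊤ := by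
        rw [eq_top_iff]
        calc (⊤ : ℝ≥0∞) = ∑' _k : ℕ, (1 : ℝ≥0∞) :=
              (ENNReal.tsum_const_eq_top_of_ne_zero one_ne_zero).symm
          _ ≤ _ := by
              apply ENNReal.tsum_le_tsum
              intro k
              rw [Set.indicator_of_mem (show z ∈ {z | D z ≤ (1 / 2 : ℝ) ^ k} from
                h0.trans (by positivity))]
              exact hwt1 k
      rw [this]
      simp
    · rcases le_or_gt (D z) 1 with h1 | h1
      · obtain ⟨k, hk1, hk2⟩ := exists_nat_pow_near_of_lt_one h0 h1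
          (by norm_num : (0 : ℝ) < 1 / 2) (by norm_num)
        refine le_trans ?_ le_add_self
        refine le_trans ?_ (ENNReal.le_tsum k)
        rw [Set.indicator_of_mem (show z ∈ {z | D z ≤ (1 / 2 : ℝ) ^ k} from hk2)]
        rw [ENNReal.ofReal_rpow_of_pos h0]
        unfold wt
        apply ENNReal.ofReal_le_ofReal
        exact Real.rpow_le_rpow_of_nonpos (by positivity) hk1.le (by linarith)
      · refine le_trans ?_ le_self_add
        rw [ENNReal.ofReal_rpow_of_pos h0, ENNReal.ofReal_le_one]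
        exact Real.rpow_le_one_of_one_le_of_nonpos h1.le (by linarith)
  calc ∫⁻ z, (ENNReal.ofReal (D z)) ^ (-s) ∂μ ≤ ∫⁻ z, (1 + ∑' k : ℕ,
        ({z | D z ≤ (1 / 2 : ℝ) ^ k} : Set ℂ).indicator (fun _ => wt s k) z) ∂μ :=
        lintegral_mono hpt
    _ = μ univ + ∑' k : ℕ, wt s k * μ {z | D z ≤ (1 / 2 : ℝ) ^ k} := by
        have hm : ∀ k : ℕ, MeasurableSet {z | D z ≤ (1 / 2 : ℝ) ^ k} := fun k =>
          measurableSet_le hD measurable_const
        rw [lintegral_add_left measurable_const, lintegral_tsum]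
        · congr 1
          · simp
          · apply tsum_congr
            intro k
            rw [lintegral_indicator (hm k), lintegral_const, Measure.restrict_apply_univ]
        · intro k
          exact (measurable_const.indicator (hm k)).aemeasurable
    _ ≤ μ univ + KK C ε s := by
        gcongr
        unfold KK
        apply ENNReal.tsum_le_tsum
        intro k
        gcongr
        exact h _ (by positivity) (pow_le_one₀ (by norm_num) (by norm_num))

variable {H : Type} [NormedAddCommGroup H] [InnerProductSpace ℂ H] [CompleteSpace H]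

/-- the resolvent through the spectral measure -/
lemma spec (N : H →L[ℂ] H) (hN : IsStarNormal N) (u : H) :
    ∃ μ : Measure (spectrum ℂ N), IsFiniteMeasure μ ∧ μ univ = ENNReal.ofReal (‖u‖ ^ 2) ∧
      ∀ z ∉ spectrum ℂ N, ENNReal.ofReal (‖resolvent N z u‖ ^ 2) =
        ∫⁻ t : spectrum ℂ N, ENNReal.ofReal ((‖z - (t : ℂ)‖ ^ 2)⁻¹) ∂μ := by
  have : CompactSpace (spectrum ℂ N) := isCompact_iff_compactSpace.1 (spectrum.isCompact N)
  set T : C(spectrum ℂ N, ℂ) →⋆ₐ[ℂ] (H →L[ℂ] H) := cfcHom hN with hT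
  obtain ⟨μ, hμ, hint⟩ := Pool.Agent.Y25.NK.exists_meas T u
  refine ⟨μ, hμ, ?_, ?_⟩
  · have h1 := hint 1
    rw [map_one, one_apply_eq_self, inner_self_eq_norm_sq_to_K] at h1
    have h2 : (μ.real univ : ℂ) = ((‖u‖ ^ 2 : ℝ) : ℂ) := by
      have h0 : ∫ z : spectrum ℂ N, (1 : C(spectrum ℂ N, ℂ)) z ∂μ = (μ.real univ : ℂ) := by
        simp
      rw [h0] at h1
      rw [h1]
      simp
    have h3 : μ.real univ = ‖u‖ ^ 2 := by exact_mod_cast h2
    rw [← h3, Measure.real, ENNReal.ofReal_toReal (measure_ne_top μ univ)]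
  · intro z hz
    have hne : ∀ t : spectrum ℂ N, z - (t : ℂ) ≠ 0 := by
      intro t h
      apply hz
      rw [sub_eq_zero.1 h]
      exact t.2
    let f : C(spectrum ℂ N, ℂ) :=
      ⟨fun t => (z - (t : ℂ))⁻¹, (continuous_const.sub continuous_subtype_val).inv₀ hne⟩
    have hTf : T f = resolvent N z := by
      have hid : T (ContinuousMap.restrict (spectrum ℂ N) (ContinuousMap.id ℂ)) = N := cfcHom_id hN
      have hg : T (algebraMap ℂ C(spectrum ℂ N, ℂ) z -
          ContinuousMap.restrict (spectrum ℂ N) (ContinuousMap.id ℂ)) =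
          algebraMap ℂ (H →L[ℂ] H) z - N := by
        rw [map_sub, hid, AlgHomClass.commutes]
      have hfg : f * (algebraMap ℂ C(spectrum ℂ N, ℂ) z -
          ContinuousMap.restrict (spectrum ℂ N) (ContinuousMap.id ℂ)) = 1 := by
        ext t
        simp only [ContinuousMap.mul_apply, ContinuousMap.sub_apply, ContinuousMap.one_apply]
        change (z - (t : ℂ))⁻¹ * (_ - (t : ℂ)) = 1
        have : (algebraMap ℂ C(spectrum ℂ N, ℂ) z) t = z := by
          simp [Algebra.algebraMap_eq_smul_one]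
        rw [this]
        exact inv_mul_cancel₀ (hne t)
      have h1 : T f * (algebraMap ℂ (H →L[ℂ] H) z - N) = 1 := by
        rw [← hg, ← map_mul, hfg, map_one]
      have h2 : (algebraMap ℂ (H →L[ℂ] H) z - N) * T f = 1 := by
        rw [← hg, ← map_mul, mul_comm, hfg, map_one]
      unfold resolvent
      have : algebraMap ℂ (H →L[ℂ] H) z - N =
          ((⟨algebraMap ℂ (H →L[ℂ] H) z - N, T f, h2, h1⟩ : (H →L[ℂ] H)ˣ) : H →L[ℂ] H) := rfl
      rw [this, Ring.inverse_unit]
      rfl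
    have h3 : ((‖resolvent N z u‖ ^ 2 : ℝ) : ℂ) = ∫ t, (star f * f) t ∂μ := by
      rw [hint, ← Pool.Agent.Y25.NK.T_inner, hTf, inner_self_eq_norm_sq_to_K]
      simp
    have h4 : ∀ t, (star f * f) t = (((‖z - (t : ℂ)‖ ^ 2)⁻¹ : ℝ) : ℂ) := by
      intro t
      rw [ContinuousMap.mul_apply, ContinuousMap.star_apply]
      change star ((z - (t : ℂ))⁻¹) * (z - (t : ℂ))⁻¹ = _
      rw [RCLike.star_def, ← Complex.normSq_eq_conj_mul_self, Complex.normSq_eq_norm_sq, norm_inv,
        inv_pow]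
    have h5 : ‖resolvent N z u‖ ^ 2 = ∫ t : spectrum ℂ N, (‖z - (t : ℂ)‖ ^ 2)⁻¹ ∂μ := by
      have : ((‖resolvent N z u‖ ^ 2 : ℝ) : ℂ) =
          ((∫ t : spectrum ℂ N, (‖z - (t : ℂ)‖ ^ 2)⁻¹ ∂μ : ℝ) : ℂ) := by
        rw [h3]
        simp only [h4]
        rw [← integral_complex_ofReal]
      exact_mod_cast this
    rw [h5, ofReal_integral_eq_lintegral_ofReal]
    · have hc : Continuous fun t : spectrum ℂ N => (‖z - (t : ℂ)‖ ^ 2)⁻¹ := by
        apply Continuous.inv₀
        · exact (continuous_const.sub continuous_subtype_val).norm.pow 2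
        · intro t
          have := norm_pos_iff.2 (hne t)
          positivity
      exact hc.integrable_of_hasCompactSupport (HasCompactSupport.of_compactSpace _)
    · exact Filter.Eventually.of_forall fun t => by positivity

theorem main : S_LOC := by
  intro H _ _ _ N hN hthin p hp1 hp2 R
  obtain ⟨C, ε, hε, hC⟩ := hthin
  set σ := spectrum ℂ N with hσ
  -- choice of the exponent
  set η : ℝ := min 1 (ε * (2 - p) / (2 * p)) with hη
  have hp0 : 0 < p := by linarith
  have h2p : 0 < 2 - p := by linarith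
  have hη0 : 0 < η := lt_min one_pos (by positivity)
  have hη1 : η ≤ 1 := min_le_left _ _
  set s : ℝ := η * p / (2 - p) with hs
  have hs0 : 0 ≤ s := by positivity
  have hsε : s < ε := by
    have h1 : η ≤ ε * (2 - p) / (2 * p) := min_le_right _ _
    rw [hs, div_lt_iff₀ h2p]
    rw [le_div_iff₀ (by positivity)] at h1
    nlinarith
  set B := ball (0 : ℂ) R with hB
  have hBfin : volume B < ⊤ := measure_ball_lt_top
  set C1 : ℝ≥0∞ := volume B + KK Real.pi 2 (2 - η) with hC1
  set C2 : ℝ≥0∞ := volume B + KK C ε s with hC2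
  have hC1fin : C1 < ⊤ := ENNReal.add_lt_top.2 ⟨hBfin, KK_lt_top (by linarith)⟩
  have hC2fin : C2 < ⊤ := ENNReal.add_lt_top.2 ⟨hBfin, KK_lt_top hsε⟩
  have hD2 : ∫⁻ z in B, (ENNReal.ofReal (infDist z σ)) ^ (-s) ≤ C2 := by
    have := layer (volume.restrict B) (fun z => infDist z σ) (continuous_infDist_pt σ).measurable
      C ε s hs0 (fun δ h0 h1 => (Measure.restrict_apply_le _ _).trans (hC δ h0 h1))
    rwa [Measure.restrict_apply_univ] at this
  have hD1 : ∀ t : ℂ, ∫⁻ z in B, (ENNReal.ofReal ‖z - t‖) ^ (-(2 - η)) ≤ C1 := by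
    intro t
    have := layer (volume.restrict B) (fun z => ‖z - t‖) (by fun_prop)
      Real.pi 2 (2 - η) (by linarith) (by
        intro δ h0 h1
        refine (Measure.restrict_apply_le _ _).trans ?_
        have e : {z : ℂ | ‖z - t‖ ≤ δ} = closedBall t δ := by
          ext z; rw [mem_ofPred_eq, mem_closedBall, dist_eq_norm]
        rw [e, Complex.volume_closedBall, mul_comm, ENNReal.ofReal_mul Real.pi_nonneg,
          ENNReal.ofReal_rpow_of_pos h0 |>.symm]
        apply le_of_eq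
        congr 1
        · rw [← NNReal.coe_real_pi, ENNReal.ofReal_coe_nnreal]
        · norm_cast)
    rwa [Measure.restrict_apply_univ] at this
  refine ⟨(C1 ^ (p / 2) * C2 ^ ((2 - p) / 2)).toNNReal, ?_⟩
  have hfin : C1 ^ (p / 2) * C2 ^ ((2 - p) / 2) ≠ ⊤ :=
    ENNReal.mul_ne_top (ENNReal.rpow_ne_top_of_nonneg (by positivity) hC1fin.ne)
      (ENNReal.rpow_ne_top_of_nonneg (by positivity) hC2fin.ne)
  rw [ENNReal.coe_toNNReal hfin]
  intro u
  obtain ⟨μ, hμ, hμu, hres⟩ := spec N hN u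
  set F : ℂ → ℝ≥0∞ := fun z => ∫⁻ t : σ, (ENNReal.ofReal ‖z - (t : ℂ)‖) ^ (-(2 - η)) ∂μ with hF
  have hjm : Measurable (fun q : ℂ × σ => (ENNReal.ofReal ‖q.1 - (q.2 : ℂ)‖) ^ (-(2 - η))) :=
    ((measurable_fst.sub (measurable_subtype_coe.comp measurable_snd)).norm.ennreal_ofReal).pow_const
      _
  have hFm : Measurable F := hjm.lintegral_prod_right'
  have hFint : ∫⁻ z in B, F z ≤ C1 * ENNReal.ofReal (‖u‖ ^ 2) := by
    rw [hF]
    rw [lintegral_lintegral_swap hjm.aemeasurable]
    calc ∫⁻ t : σ, ∫⁻ z in B, (ENNReal.ofReal ‖z - (t : ℂ)‖) ^ (-(2 - η)) ∂volume ∂μ ≤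
        ∫⁻ _t : σ, C1 ∂μ := lintegral_mono fun t => hD1 t
      _ = C1 * ENNReal.ofReal (‖u‖ ^ 2) := by rw [lintegral_const, hμu]
  have hpt : ∀ z : ℂ, ENNReal.ofReal (‖resolvent N z u‖ ^ p) ≤
      (F z) ^ (p / 2) * (ENNReal.ofReal (infDist z σ)) ^ (-(η * p / 2)) := by
    intro z
    by_cases hz : z ∈ σ
    · have h1 : resolvent N z = 0 := by
        unfold resolvent
        apply Ring.inverse_non_unit
        exact spectrum.mem_iff.1 hz
      rw [h1, zero_apply, norm_zero, Real.zero_rpow (by linarith),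
        ENNReal.ofReal_zero]
      exact zero_le
    · rcases σ.eq_empty_or_nonempty with hemp | hne
      · have hu : u = 0 := by
          by_contra hu
          have : Nontrivial H := ⟨u, 0, hu⟩
          have h1 := spectrum.nonempty N
          rw [← hσ, hemp] at h1
          exact Set.not_nonempty_empty h1
        rw [hu, map_zero, norm_zero, Real.zero_rpow (by linarith), ENNReal.ofReal_zero]
        exact zero_le
      · have hcl : IsClosed σ := spectrum.isClosed N
        have hpos : 0 < infDist z σ := (hcl.notMem_iff_infDist_pos hne).1 hz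
        set D := ENNReal.ofReal (infDist z σ) with hD
        have hD0 : D ≠ 0 := by
          rw [hD]; exact (ENNReal.ofReal_pos.2 hpos).ne'
        have hDt : D ≠ ⊤ := ENNReal.ofReal_ne_top
        have h1 : D ^ η * ENNReal.ofReal (‖resolvent N z u‖ ^ 2) ≤ F z := by
          rw [hres z hz, ← lintegral_const_mul' _ _ (ENNReal.rpow_ne_top_of_nonneg hη0.le hDt)]
          apply lintegral_mono
          intro t
          have hle : infDist z σ ≤ ‖z - (t : ℂ)‖ := by
            rw [← dist_eq_norm]; exact infDist_le_dist_of_mem t.2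
          have hn : 0 < ‖z - (t : ℂ)‖ := hpos.trans_le hle
          have e1 : ENNReal.ofReal ((‖z - (t : ℂ)‖ ^ 2)⁻¹) =
              (ENNReal.ofReal ‖z - (t : ℂ)‖) ^ (-(2 : ℝ)) := by
            rw [ENNReal.ofReal_rpow_of_pos hn, Real.rpow_neg hn.le]
            norm_cast
          have hE0 : ENNReal.ofReal ‖z - (t : ℂ)‖ ≠ 0 := (ENNReal.ofReal_pos.2 hn).ne'
          simp only
          rw [e1]
          calc D ^ η * (ENNReal.ofReal ‖z - (t : ℂ)‖) ^ (-(2 : ℝ)) ≤
              (ENNReal.ofReal ‖z - (t : ℂ)‖) ^ η * (ENNReal.ofReal ‖z - (t : ℂ)‖) ^ (-(2 : ℝ)) := by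
                gcongr
                exact ENNReal.ofReal_le_ofReal hle
            _ = (ENNReal.ofReal ‖z - (t : ℂ)‖) ^ (-(2 - η)) := by
                rw [← ENNReal.rpow_add _ _ hE0 ENNReal.ofReal_ne_top]
                congr 1
                ring
        have h2 : ENNReal.ofReal (‖resolvent N z u‖ ^ 2) ≤ F z * D ^ (-η) := by
          have h3 : D ^ (-η) * (D ^ η * ENNReal.ofReal (‖resolvent N z u‖ ^ 2)) =
              ENNReal.ofReal (‖resolvent N z u‖ ^ 2) := by
            rw [← mul_assoc, ← ENNReal.rpow_add _ _ hD0 hDt, neg_add_cancel, ENNReal.rpow_zero,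
              one_mul]
          rw [← h3, mul_comm (F z)]
          gcongr
        have h4 : ENNReal.ofReal (‖resolvent N z u‖ ^ p) =
            (ENNReal.ofReal (‖resolvent N z u‖ ^ 2)) ^ (p / 2) := by
          rw [ENNReal.ofReal_rpow_of_nonneg (by positivity) (by positivity)]
          congr 1
          rw [← Real.rpow_natCast, ← Real.rpow_mul (norm_nonneg _)]
          congr 1
          push_cast
          ring
        rw [h4]
        calc (ENNReal.ofReal (‖resolvent N z u‖ ^ 2)) ^ (p / 2) ≤ (F z * D ^ (-η)) ^ (p / 2) := by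
              gcongr
          _ = (F z) ^ (p / 2) * D ^ (-(η * p / 2)) := by
              rw [ENNReal.mul_rpow_of_nonneg _ _ (by positivity), ← ENNReal.rpow_mul]
              congr 2
              ring
  have hconj : (2 / p).HolderConjugate (2 / (2 - p)) := by
    rw [Real.holderConjugate_iff]
    refine ⟨by rw [lt_div_iff₀ hp0]; linarith, ?_⟩
    field_simp
    ring
  calc ∫⁻ z in B, ENNReal.ofReal (‖resolvent N z u‖ ^ p) ≤
      ∫⁻ z in B, ((fun z => (F z) ^ (p / 2)) *
        (fun z => (ENNReal.ofReal (infDist z σ)) ^ (-(η * p / 2)))) z := lintegral_mono hpt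
    _ ≤ (∫⁻ z in B, ((F z) ^ (p / 2)) ^ (2 / p)) ^ (1 / (2 / p)) *
        (∫⁻ z in B, ((ENNReal.ofReal (infDist z σ)) ^ (-(η * p / 2))) ^ (2 / (2 - p))) ^
          (1 / (2 / (2 - p))) := by
        apply ENNReal.lintegral_mul_le_Lp_mul_Lq _ hconj
        · exact (hFm.pow_const _).aemeasurable
        · exact ((continuous_infDist_pt σ).measurable.ennreal_ofReal.pow_const _).aemeasurable
    _ = (∫⁻ z in B, F z) ^ (p / 2) *
        (∫⁻ z in B, (ENNReal.ofReal (infDist z σ)) ^ (-s)) ^ ((2 - p) / 2) := by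
        have e1 : p / 2 * (2 / p) = 1 := by field_simp
        have e2 : -(η * p / 2) * (2 / (2 - p)) = -s := by
          rw [hs]; field_simp
        have e3 : 1 / (2 / p) = p / 2 := by field_simp
        have e4 : 1 / (2 / (2 - p)) = (2 - p) / 2 := by field_simp
        simp only [← ENNReal.rpow_mul, e1, e2, e3, e4, ENNReal.rpow_one]
    _ ≤ (C1 * ENNReal.ofReal (‖u‖ ^ 2)) ^ (p / 2) * C2 ^ ((2 - p) / 2) := by
        gcongr
    _ = C1 ^ (p / 2) * C2 ^ ((2 - p) / 2) * ENNReal.ofReal (‖u‖ ^ p) := by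
        rw [ENNReal.mul_rpow_of_nonneg _ _ (by positivity)]
        have h4 : ENNReal.ofReal (‖u‖ ^ p) = (ENNReal.ofReal (‖u‖ ^ 2)) ^ (p / 2) := by
          rw [ENNReal.ofReal_rpow_of_nonneg (by positivity) (by positivity)]
          congr 1
          rw [← Real.rpow_natCast, ← Real.rpow_mul (norm_nonneg _)]
          congr 1
          push_cast
          ring
        rw [h4]
        ring

end Pool.Agent.R276.CP.Loc
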