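import Pool.Agent.R276.CP.Stm

/-!
Project CP, part CP-C: the logarithmic potential of a polynomial times an exponential.
-/

set_option autoImplicit false

namespace Pool.Agent.R276.CP.Pot

open MeasureTheory Set Metric Filter Topology
open scoped ENNReal NNReal
open Pool.Agent.R276.CP

theorem measurable_lm : Measurable lm := by
  unfold lm
  refine Measurable.ite (measurableSet_singleton 0) measurable_const ?_
  refine ENNReal.measurable_ofReal.comp ?_
  have : Measurable Real.posLog := by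
    unfold Real.posLog
    exact measurable_const.max Real.measurable_log
  exact this.comp measurable_inv

theorem lm_mul (x y : ℝ) : lm (x * y) ≤ lm x + lm y := by
  unfold lm
  by_cases hx : x = 0
  · simp [hx]
  by_cases hy : y = 0
  · simp [hy]
  rw [if_neg hx, if_neg hy, if_neg (mul_ne_zero hx hy), ← ENNReal.ofReal_add Real.posLog_nonneg
    Real.posLog_nonneg, mul_inv]
  exact ENNReal.ofReal_le_ofReal Real.posLog_mul

theorem lm_one : lm 1 = 0 := by
  unfold lm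
  rw [if_neg one_ne_zero, inv_one]
  simp

theorem lm_le_of_exp {x y : ℝ} (hx : 0 < x) (hy : 0 ≤ y) (h : x⁻¹ ≤ Real.exp y) :
    lm x ≤ ENNReal.ofReal y := by
  unfold lm
  rw [if_neg hx.ne']
  apply ENNReal.ofReal_le_ofReal
  unfold Real.posLog
  apply max_le hy
  rw [Real.log_le_iff_le_exp (by positivity)]
  exact h

/-- the product of the factors `1 - κ / ρ` -/
noncomputable def P (S : Multiset ℂ) (κ : ℂ) : ℂ := (S.map (fun ρ => 1 - κ / ρ)).prod

/-- the sum of the logarithms -/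
noncomputable def Lg (S : Multiset ℂ) (κ : ℂ) : ℂ := (S.map (fun ρ => Complex.log (1 - κ / ρ))).sum

theorem P_cons (a : ℂ) (S : Multiset ℂ) (κ : ℂ) : P (a ::ₘ S) κ = (1 - κ / a) * P S κ := by
  unfold P; rw [Multiset.map_cons, Multiset.prod_cons]

theorem Lg_cons (a : ℂ) (S : Multiset ℂ) (κ : ℂ) :
    Lg (a ::ₘ S) κ = Complex.log (1 - κ / a) + Lg S κ := by
  unfold Lg; rw [Multiset.map_cons, Multiset.sum_cons]

theorem P_zero (S : Multiset ℂ) : P S 0 = 1 := by
  induction S using Multiset.induction_on with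
  | empty => simp [P]
  | cons a S ih => rw [P_cons, ih]; simp

theorem Lg_zero (S : Multiset ℂ) : Lg S 0 = 0 := by
  induction S using Multiset.induction_on with
  | empty => simp [Lg]
  | cons a S ih => rw [Lg_cons, ih]; simp

theorem P_diff (S : Multiset ℂ) : Differentiable ℂ (P S) := by
  induction S using Multiset.induction_on with
  | empty =>
    have : P 0 = fun _ => (1:ℂ) := by funext κ; simp [P]
    rw [this]; exact differentiable_const _
  | cons a S ih =>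
    have : P (a ::ₘ S) = fun κ => (1 - κ / a) * P S κ := by funext κ; exact P_cons a S κ
    rw [this]
    exact ((differentiable_const _).sub (differentiable_id.div_const a)).mul ih

theorem slit {κ ρ : ℂ} {R : ℝ} (hκ : ‖κ‖ < R) (hρ : R < ‖ρ‖) :
    1 - κ / ρ ∈ Complex.slitPlane := by
  have h1 : 0 < ‖ρ‖ := (norm_nonneg κ).trans_lt (hκ.trans hρ)
  rw [sub_eq_add_neg]
  apply Complex.mem_slitPlane_of_norm_lt_one
  rw [norm_neg, norm_div, div_lt_one h1]
  exact hκ.trans hρ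

theorem Lg_diff {R : ℝ} (S : Multiset ℂ) (hS : ∀ ρ ∈ S, R < ‖ρ‖) :
    DifferentiableOn ℂ (Lg S) (ball 0 R) := by
  induction S using Multiset.induction_on with
  | empty =>
    have : Lg 0 = fun _ => (0:ℂ) := by funext κ; simp [Lg]
    rw [this]; exact differentiableOn_const _
  | cons a S ih =>
    have : Lg (a ::ₘ S) = fun κ => Complex.log (1 - κ / a) + Lg S κ := by
      funext κ; exact Lg_cons a S κ
    rw [this]
    refine DifferentiableOn.add ?_ (ih fun ρ hρ => hS ρ (Multiset.mem_cons_of_mem hρ))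
    refine DifferentiableOn.clog ?_ ?_
    · exact ((differentiable_const _).sub (differentiable_id.div_const a)).differentiableOn
    · intro κ hκ
      exact slit (mem_ball_zero_iff.1 hκ) (hS a (Multiset.mem_cons_self a S))

theorem exp_Lg {R : ℝ} (S : Multiset ℂ) (hS : ∀ ρ ∈ S, R < ‖ρ‖) {κ : ℂ} (hκ : ‖κ‖ < R) :
    Complex.exp (Lg S κ) = P S κ := by
  induction S using Multiset.induction_on with
  | empty => simp [Lg, P]
  | cons a S ih =>
    rw [Lg_cons, P_cons, Complex.exp_add, ih fun ρ hρ => hS ρ (Multiset.mem_cons_of_mem hρ),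
      Complex.exp_log]
    exact Complex.slitPlane_ne_zero (slit hκ (hS a (Multiset.mem_cons_self a S)))

theorem P_big {r : ℝ} (hr : 0 < r) (S : Multiset ℂ) (hS : ∀ ρ ∈ S, ρ ≠ 0 ∧ ‖ρ‖ ≤ 2 * r) {κ : ℂ}
    (hκ : ‖κ‖ = 6 * r) : 2 ^ (Multiset.card S) ≤ ‖P S κ‖ := by
  induction S using Multiset.induction_on with
  | empty => simp [P]
  | cons a S ih =>
    have ih' := ih fun ρ hρ => hS ρ (Multiset.mem_cons_of_mem hρ)
    obtain ⟨ha0, ha⟩ := hS a (Multiset.mem_cons_self a S)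
    have ha1 : 0 < ‖a‖ := norm_pos_iff.2 ha0
    rw [P_cons, norm_mul, Multiset.card_cons, pow_succ, mul_comm]
    have h1 : 2 ≤ ‖1 - κ / a‖ := by
      have h2 : ‖κ / a‖ - ‖(1:ℂ)‖ ≤ ‖1 - κ / a‖ := by
        rw [norm_sub_rev]; exact norm_sub_norm_le _ _
      have h3 : 3 ≤ ‖κ / a‖ := by
        rw [norm_div, le_div_iff₀ ha1, hκ]; linarith
      rw [norm_one] at h2
      linarith
    exact mul_le_mul h1 ih' (by positivity) (norm_nonneg _)

theorem P_lm (S : Multiset ℂ) {B : ℝ} (hS : ∀ ρ ∈ S, ρ ≠ 0 ∧ ‖ρ‖ ≤ B) (κ : ℂ) :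
    lm ‖P S κ‖ ≤ (S.map (fun ρ => ENNReal.ofReal (Real.posLog B) + lm ‖κ - ρ‖)).sum := by
  induction S using Multiset.induction_on with
  | empty => simp [P, lm_one]
  | cons a S ih =>
    have ih' := ih fun ρ hρ => hS ρ (Multiset.mem_cons_of_mem hρ)
    obtain ⟨ha0, ha⟩ := hS a (Multiset.mem_cons_self a S)
    have ha1 : 0 < ‖a‖ := norm_pos_iff.2 ha0
    rw [P_cons, norm_mul, Multiset.map_cons, Multiset.sum_cons]
    refine (lm_mul _ _).trans (add_le_add ?_ ih')
    have e : ‖1 - κ / a‖ = ‖a‖⁻¹ * ‖κ - a‖ := by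
      have : 1 - κ / a = -((κ - a) / a) := by field_simp; ring
      rw [this, norm_neg, norm_div]; field_simp
    rw [e]
    refine (lm_mul _ _).trans (add_le_add ?_ le_rfl)
    unfold lm
    rw [if_neg (inv_ne_zero ha1.ne'), inv_inv]
    exact ENNReal.ofReal_le_ofReal (Real.posLog_le_posLog ha1.le ha)

theorem int_sum (m : Measure ℂ) {r : ℝ} {C0 : ℝ≥0} (hmass : m (ball (0:ℂ) r) ≤ C0)
    (hpot : ∀ s : ℂ, ∫⁻ t in ball (0:ℂ) r, lm ‖t - s‖ ∂m ≤ C0) (c : ℝ≥0∞) (S : Multiset ℂ) :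
    ∫⁻ κ in ball (0:ℂ) r, (S.map (fun ρ => c + lm ‖κ - ρ‖)).sum ∂m ≤
      (Multiset.card S : ℝ≥0∞) * (c * C0 + C0) := by
  induction S using Multiset.induction_on with
  | empty => simp
  | cons a S ih =>
    simp only [Multiset.map_cons, Multiset.sum_cons, Multiset.card_cons]
    have hmf : Measurable (fun κ : ℂ => c + lm ‖κ - a‖) :=
      measurable_const.add (measurable_lm.comp (by fun_prop))
    rw [lintegral_add_left hmf]
    have h1 : ∫⁻ κ in ball (0:ℂ) r, (c + lm ‖κ - a‖) ∂m ≤ c * C0 + C0 := by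
      rw [lintegral_add_left measurable_const, lintegral_const, Measure.restrict_apply_univ]
      exact add_le_add (mul_le_mul_right hmass c) (hpot a)
    push_cast
    rw [add_mul, one_mul, add_comm]
    exact add_le_add ih h1

/-- the factorization of a polynomial with `q 0 = 1` -/
theorem factorization (q : Polynomial ℂ) (hq : q.eval 0 = 1) :
    (∀ ρ ∈ q.roots, ρ ≠ 0) ∧ ∀ κ, q.eval κ = P q.roots κ := by
  have hq0 : q ≠ 0 := by
    intro h; rw [h, Polynomial.eval_zero] at hq; exact zero_ne_one hq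
  have hroot : ∀ ρ ∈ q.roots, ρ ≠ 0 := by
    intro ρ hρ h0
    have h1 := (Polynomial.mem_roots hq0).1 hρ
    rw [h0, Polynomial.IsRoot.def, hq] at h1
    exact one_ne_zero h1
  refine ⟨hroot, fun κ => ?_⟩
  have hs : q.Splits := IsAlgClosed.splits q
  have e0 : (1 : ℂ) = q.leadingCoeff * (q.roots.map (fun ρ => 0 - ρ)).prod := by
    rw [← hs.eval_eq_prod_roots, hq]
  have eκ : q.eval κ = q.leadingCoeff * (q.roots.map (fun ρ => κ - ρ)).prod :=
    hs.eval_eq_prod_roots κ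
  have e1 : (q.roots.map (fun ρ => κ - ρ)).prod =
      (q.roots.map (fun ρ => 0 - ρ)).prod * P q.roots κ := by
    unfold P
    rw [← Multiset.prod_map_mul]
    congr 1
    apply Multiset.map_congr rfl
    intro ρ hρ
    have := hroot ρ hρ
    field_simp
    ring
  rw [eκ, e1, ← mul_assoc, ← e0, one_mul]

theorem key {r : ℝ} (hr : 0 < r) (q : Polynomial ℂ) (τ : ℂ) (M : ℝ) (hq : q.eval 0 = 1)
    (hM : 0 ≤ M)
    (hf : ∀ κ : ℂ, ‖κ‖ ≤ 6 * r → ‖q.eval κ * Complex.exp (κ * τ)‖ ≤ Real.exp M) :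
    ∃ S : Multiset ℂ, (Multiset.card S : ℝ) * Real.log 2 ≤ M ∧ ∀ κ : ℂ, ‖κ‖ < r →
      lm ‖q.eval κ * Complex.exp (κ * τ)‖ ≤ ENNReal.ofReal (2 * (M + 1)) +
        (S.map (fun ρ => ENNReal.ofReal (Real.posLog (2 * r)) + lm ‖κ - ρ‖)).sum := by
  classical
  obtain ⟨hroot, hfac⟩ := factorization q hq
  set S1 := q.roots.filter (fun ρ => ‖ρ‖ ≤ 2 * r) with hS1
  set S2 := q.roots.filter (fun ρ => ¬ ‖ρ‖ ≤ 2 * r) with hS2
  have hsplit : ∀ κ, q.eval κ = P S1 κ * P S2 κ := by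
    intro κ
    rw [hfac κ]
    unfold P
    rw [← Multiset.prod_add, ← Multiset.map_add, hS1, hS2, Multiset.filter_add_not]
  have h1 : ∀ ρ ∈ S1, ρ ≠ 0 ∧ ‖ρ‖ ≤ 2 * r := by
    intro ρ hρ
    rw [hS1, Multiset.mem_filter] at hρ
    exact ⟨hroot ρ hρ.1, hρ.2⟩
  have h2 : ∀ ρ ∈ S2, 2 * r < ‖ρ‖ := by
    intro ρ hρ
    rw [hS2, Multiset.mem_filter] at hρ
    exact not_le.1 hρ.2
  set h : ℂ → ℂ := fun κ => P S2 κ * Complex.exp (κ * τ) with hh
  have hdiff : Differentiable ℂ h :=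
    (P_diff S2).mul ((differentiable_id.mul_const τ).cexp)
  have hfr : ∀ κ ∈ frontier (ball (0:ℂ) (6 * r)), ‖h κ‖ ≤ Real.exp M / 2 ^ (Multiset.card S1) := by
    intro κ hκ
    rw [frontier_ball (0:ℂ) (by positivity), mem_sphere_zero_iff_norm] at hκ
    have hb := P_big hr S1 h1 hκ
    have hf' := hf κ hκ.le
    rw [hsplit κ, mul_assoc, norm_mul] at hf'
    rw [le_div_iff₀ (by positivity)]
    calc ‖h κ‖ * 2 ^ (Multiset.card S1) ≤ ‖h κ‖ * ‖P S1 κ‖ :=
          mul_le_mul_of_nonneg_left hb (norm_nonneg _)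
      _ = ‖P S1 κ‖ * ‖P S2 κ * Complex.exp (κ * τ)‖ := by rw [mul_comm]
      _ ≤ _ := hf'
  have hmax : ∀ κ : ℂ, ‖κ‖ ≤ 6 * r → ‖h κ‖ ≤ Real.exp M / 2 ^ (Multiset.card S1) := by
    intro κ hκ
    apply Complex.norm_le_of_forall_mem_frontier_norm_le (U := ball (0:ℂ) (6 * r)) isBounded_ball
      hdiff.diffContOnCl hfr
    rw [closure_ball (0:ℂ) (by positivity)]
    exact mem_closedBall_zero_iff.2 hκ
  have hpow1 : (1:ℝ) ≤ 2 ^ (Multiset.card S1) := one_le_pow₀ (by norm_num)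
  have hcard : (Multiset.card S1 : ℝ) * Real.log 2 ≤ M := by
    have h3 := hmax 0 (by rw [norm_zero]; positivity)
    rw [hh] at h3
    simp only [P_zero, zero_mul, Complex.exp_zero, mul_one, norm_one] at h3
    rw [le_div_iff₀ (by positivity), one_mul] at h3
    rw [← Real.log_pow]
    exact (Real.log_le_iff_le_exp (by positivity)).2 h3
  refine ⟨S1, hcard, ?_⟩
  -- the logarithm
  set g : ℂ → ℂ := fun κ => Lg S2 κ + κ * τ with hg
  have hgd : DifferentiableOn ℂ g (ball 0 (2 * r)) :=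
    (Lg_diff S2 h2).add (differentiable_id.mul_const τ).differentiableOn
  have hexp : ∀ κ : ℂ, ‖κ‖ < 2 * r → Complex.exp (g κ) = h κ := by
    intro κ hκ
    rw [hg, hh]
    simp only
    rw [Complex.exp_add, exp_Lg S2 h2 hκ]
  have hgre : Set.MapsTo g (ball 0 (2 * r)) {z | z.re ≤ M + 1} := by
    intro κ hκ
    rw [mem_ball_zero_iff] at hκ
    have h3 := hmax κ (by linarith)
    rw [← hexp κ hκ, Complex.norm_exp] at h3
    have h4 : Real.exp M / 2 ^ (Multiset.card S1) ≤ Real.exp M :=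
      div_le_self (Real.exp_pos _).le hpow1
    have h5 : (g κ).re ≤ M := Real.exp_le_exp.1 (h3.trans h4)
    show (g κ).re ≤ M + 1
    linarith
  have hg0 : g 0 = 0 := by
    rw [hg]; simp only [Lg_zero, zero_mul, add_zero]
  intro κ hκ
  have hκ2 : ‖κ‖ < 2 * r := by linarith
  have hbc := Complex.borelCaratheodory_zero (f := g) (M := M + 1) (R := 2 * r) (by linarith)
    hgd hgre (by linarith) (mem_ball_zero_iff.2 hκ2) hg0
  have hg1 : ‖g κ‖ ≤ 2 * (M + 1) := by
    refine hbc.trans ?_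
    rw [div_le_iff₀ (by linarith)]
    have : ‖κ‖ ≤ 2 * r - ‖κ‖ := by linarith
    exact mul_le_mul_of_nonneg_left this (by linarith)
  have hlow : lm ‖h κ‖ ≤ ENNReal.ofReal (2 * (M + 1)) := by
    have hne : h κ ≠ 0 := by rw [← hexp κ hκ2]; exact Complex.exp_ne_zero _
    apply lm_le_of_exp (norm_pos_iff.2 hne) (by linarith)
    rw [← hexp κ hκ2, Complex.norm_exp, ← Real.exp_neg]
    apply Real.exp_le_exp.2
    have := (abs_le.1 ((Complex.abs_re_le_norm (g κ)).trans hg1)).1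
    linarith
  rw [hsplit κ, mul_assoc, norm_mul]
  refine (lm_mul _ _).trans ?_
  rw [add_comm]
  exact add_le_add hlow (P_lm S1 h1 κ)

theorem main : S_POT := by
  intro m hm r hr
  obtain ⟨C0, hmass, hpot⟩ := hm r
  set pl : ℝ≥0 := Real.toNNReal (Real.posLog (2 * r)) with hpl
  refine ⟨2 * C0 + 2 * (pl * C0 + C0), ?_⟩
  intro q τ M hq hM hf
  obtain ⟨S, hcard, hS⟩ := key hr q τ M hq hM hf
  have hk : (Multiset.card S : ℝ≥0∞) ≤ ENNReal.ofReal (2 * (M + 1)) := by
    rw [← ENNReal.ofReal_natCast]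
    apply ENNReal.ofReal_le_ofReal
    have hl : (1:ℝ)/2 ≤ Real.log 2 := by linarith [Real.log_two_gt_d9]
    have h0 : (0:ℝ) ≤ (Multiset.card S : ℝ) := Nat.cast_nonneg _
    nlinarith
  have hofpl : ENNReal.ofReal (Real.posLog (2 * r)) = (pl : ℝ≥0∞) := rfl
  calc ∫⁻ κ in ball (0:ℂ) r, lm ‖q.eval κ * Complex.exp (κ * τ)‖ ∂m
      ≤ ∫⁻ κ in ball (0:ℂ) r, (ENNReal.ofReal (2 * (M + 1)) +
        (S.map (fun ρ => (pl : ℝ≥0∞) + lm ‖κ - ρ‖)).sum) ∂m := by
        apply setLIntegral_mono_ae' measurableSet_ball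
        filter_upwards with κ hκ
        exact hS κ (mem_ball_zero_iff.1 hκ)
    _ = ENNReal.ofReal (2 * (M + 1)) * m (ball (0:ℂ) r) +
        ∫⁻ κ in ball (0:ℂ) r, (S.map (fun ρ => (pl : ℝ≥0∞) + lm ‖κ - ρ‖)).sum ∂m := by
        rw [lintegral_add_left measurable_const, lintegral_const, Measure.restrict_apply_univ]
    _ ≤ ENNReal.ofReal (2 * (M + 1)) * C0 +
        (Multiset.card S : ℝ≥0∞) * ((pl : ℝ≥0∞) * C0 + C0) :=
        add_le_add (mul_le_mul_right hmass _) (int_sum m hmass hpot _ S)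
    _ ≤ ENNReal.ofReal (2 * (M + 1)) * C0 +
        ENNReal.ofReal (2 * (M + 1)) * ((pl : ℝ≥0∞) * C0 + C0) := by gcongr
    _ = ((2 * C0 + 2 * (pl * C0 + C0) : ℝ≥0) : ℝ≥0∞) * ENNReal.ofReal (M + 1) := by
        rw [ENNReal.ofReal_mul (by norm_num), ENNReal.ofReal_ofNat]
        push_cast
        ring

end Pool.Agent.R276.CP.Pot
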