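import Pool.Agent.R276.CP.Up
import Pool.Agent.Y271.CO.Res

/-!
# Part CP-B: the bound for the resolvent of a finite rank perturbation, uniform in the rank
-/

set_option autoImplicit false

namespace Pool.Agent.R276.CP.Rs

open MeasureTheory Set Metric Filter Topology Pool.Agent.R276.CP Matrix
open Pool.Agent.Y271.CO (Mx op res_formula op_apply)
open scoped InnerProductSpace ENNReal NNReal

/-- the scalar inequality -/
theorem scalar2 {x b p : ℝ} (hx : |x| ≤ b) (hp1 : 1 ≤ p) (hp2 : p ≤ 2) :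
    (1 + 2 * x + 2 * b ^ 2) * Real.exp (-(2 * x)) ≤ Real.exp (6 * b ^ p) := by
  have hb : 0 ≤ b := (abs_nonneg x).trans hx
  obtain ⟨hx1, hx2⟩ := abs_le.1 hx
  have hbp : 0 ≤ b ^ p := Real.rpow_nonneg hb p
  rcases le_total b 1 with h1 | h1
  · have h2 : b ^ 2 ≤ b ^ p := by
      rcases hb.eq_or_lt with h0 | h0
      · rw [← h0, Real.zero_rpow (by linarith)]
        norm_num
      · have := Real.rpow_le_rpow_of_exponent_ge h0 h1 hp2
        rwa [Real.rpow_two] at this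
    have h3 : 1 + 2 * x + 2 * b ^ 2 ≤ Real.exp (2 * x + 2 * b ^ 2) := by
      have := Real.add_one_le_exp (2 * x + 2 * b ^ 2)
      linarith
    calc (1 + 2 * x + 2 * b ^ 2) * Real.exp (-(2 * x))
        ≤ Real.exp (2 * x + 2 * b ^ 2) * Real.exp (-(2 * x)) :=
          mul_le_mul_of_nonneg_right h3 (Real.exp_pos _).le
      _ = Real.exp (2 * b ^ 2) := by rw [← Real.exp_add]; ring_nf
      _ ≤ Real.exp (6 * b ^ p) := Real.exp_le_exp.2 (by linarith)
  · have h2 : b ≤ b ^ p := by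
      have := Real.rpow_le_rpow_of_exponent_le h1 hp1
      rwa [Real.rpow_one] at this
    have h3 : 1 + 2 * x + 2 * b ^ 2 ≤ Real.exp (2 * b) := by
      have h4 := Real.quadratic_le_exp_of_nonneg (x := 2 * b) (by linarith)
      nlinarith
    calc (1 + 2 * x + 2 * b ^ 2) * Real.exp (-(2 * x))
        ≤ Real.exp (2 * b) * Real.exp (-(2 * x)) :=
          mul_le_mul_of_nonneg_right h3 (Real.exp_pos _).le
      _ = Real.exp (2 * b - 2 * x) := by rw [← Real.exp_add]; ring_nf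
      _ ≤ Real.exp (6 * b ^ p) := Real.exp_le_exp.2 (by linarith)

section

variable {H : Type} [NormedAddCommGroup H] [InnerProductSpace ℂ H] {n : ℕ}

/-- the coordinates -/
noncomputable def F (e : Fin n → H) : H →L[ℂ] (Fin n → ℂ) :=
  ContinuousLinearMap.pi fun i => innerSL ℂ (e i)

/-- the synthesis operator -/
noncomputable def J (u : Fin n → H) : (Fin n → ℂ) →L[ℂ] H :=
  ∑ j, (ContinuousLinearMap.proj j : (Fin n → ℂ) →L[ℂ] ℂ).smulRight (u j)

theorem F_apply (e : Fin n → H) (x : H) (i : Fin n) : F e x i = ⟪e i, x⟫_ℂ := by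
  simp [F]

theorem J_apply (u : Fin n → H) (w : Fin n → ℂ) : J u w = ∑ j, w j • u j := by
  simp [J, _root_.sum_apply]

theorem Mx_eq (e u : Fin n → H) (R : H →L[ℂ] H) : Mx (F e) (J u) R = Gm R e u := by
  ext i j
  simp only [Mx, Gm, Matrix.of_apply, F_apply, J_apply]
  congr 2
  simp [Pi.single_apply]

/-- the bordered matrix -/
noncomputable def bord (R : H →L[ℂ] H) (e u : Fin n → H) (κ : ℂ) (x f : H) :
    Matrix (Fin n ⊕ Unit) (Fin n ⊕ Unit) ℂ :=
  Matrix.fromBlocks (1 - κ • Gm R e u) (Matrix.of fun i _ => ⟪e i, R x⟫_ℂ)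
    (Matrix.of fun _ j => -κ * ⟪f, R (u j)⟫_ℂ) (Matrix.of fun _ _ => ⟪f, R x⟫_ℂ)

theorem det_bord (R : H →L[ℂ] H) (e u : Fin n → H) (κ : ℂ) (x f : H)
    (N : Matrix (Fin n) (Fin n) ℂ) (h1 : (1 - κ • Gm R e u) * N = 1)
    (h2 : N * (1 - κ • Gm R e u) = 1) :
    (bord R e u κ x f).det = (1 - κ • Gm R e u).det *
      ⟪f, R x + κ • R (J u (op N (F e (R x))))⟫_ℂ := by
  let _ : Invertible (1 - κ • Gm R e u) := ⟨N, h2, h1⟩
  have hN : ⅟(1 - κ • Gm R e u) = N := rfl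
  rw [bord, Matrix.det_fromBlocks₁₁, hN]
  congr 1
  rw [Matrix.det_unique, op_apply, J_apply, inner_add_right, inner_smul_right, map_sum, inner_sum]
  simp only [Matrix.sub_apply, Matrix.mul_apply, Matrix.of_apply, map_smul, inner_smul_right,
    Matrix.mulVec, dotProduct, F_apply]
  rw [sub_eq_add_neg]
  congr 1
  rw [Finset.mul_sum, ← Finset.sum_neg_distrib]
  simp_rw [Finset.sum_mul, Finset.mul_sum, ← Finset.sum_neg_distrib]
  rw [Finset.sum_comm]
  refine Finset.sum_congr rfl fun j _ => Finset.sum_congr rfl fun i _ => ?_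
  ring

/-- Hadamard's inequality for the bordered matrix -/
theorem had (h : S_HAD) (R : H →L[ℂ] H) {e u : Fin n → H} (he : Orthonormal ℂ e) (κ : ℂ)
    (x f : H) (hf : ‖f‖ ≤ 1) :
    ‖(bord R e u κ x f).det‖ ^ 2 ≤
      (∏ j, (1 + 2 * (-(⟪e j, κ • R (u j)⟫_ℂ).re) + 2 * (‖κ‖ * ‖R (u j)‖) ^ 2)) *
        (2 * ‖R x‖ ^ 2) := by
  refine (h (Fin n ⊕ Unit) _).trans ?_
  rw [Fintype.prod_sum_type]
  have hbw : ∀ j, ‖κ • R (u j)‖ = ‖κ‖ * ‖R (u j)‖ := fun j => norm_smul _ _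
  refine mul_le_mul ?_ ?_ (Finset.prod_nonneg fun j _ => Finset.sum_nonneg fun i _ => by positivity)
    (Finset.prod_nonneg fun j _ => ?_)
  · refine Finset.prod_le_prod (fun j _ => Finset.sum_nonneg fun i _ => by positivity)
      fun j _ => ?_
    rw [Fintype.sum_sum_type]
    have h1 := Up.col he (κ • R (u j)) j
    rw [hbw] at h1
    have h2 : ∀ i, bord R e u κ x f (Sum.inl i) (Sum.inl j) =
        (1 : Matrix (Fin n) (Fin n) ℂ) i j - ⟪e i, κ • R (u j)⟫_ℂ := by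
      intro i
      rw [bord, Matrix.fromBlocks_apply₁₁, Matrix.sub_apply, Matrix.smul_apply, smul_eq_mul,
        inner_smul_right]
      rfl
    simp_rw [h2]
    have h3 : ∑ i : Unit, ‖bord R e u κ x f (Sum.inr i) (Sum.inl j)‖ ^ 2 ≤
        (‖κ‖ * ‖R (u j)‖) ^ 2 := by
      rw [Fintype.sum_unique]
      refine pow_le_pow_left₀ (norm_nonneg _) ?_ 2
      rw [bord, Matrix.fromBlocks_apply₂₁, Matrix.of_apply, norm_mul, norm_neg]
      refine mul_le_mul_of_nonneg_left ?_ (norm_nonneg _)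
      refine (norm_inner_le_norm _ _).trans ?_
      nlinarith [norm_nonneg (R (u j)), norm_nonneg f]
    linarith
  · rw [Fintype.prod_unique, Fintype.sum_sum_type]
    have h1 : ∀ i, bord R e u κ x f (Sum.inl i) (Sum.inr default) = ⟪e i, R x⟫_ℂ := fun i => rfl
    have h2 : ∑ i : Unit, ‖bord R e u κ x f (Sum.inr i) (Sum.inr default)‖ ^ 2 =
        ‖⟪f, R x⟫_ℂ‖ ^ 2 := by
      rw [Fintype.sum_unique]
      rfl
    simp_rw [h1]
    rw [h2]
    have h3 := he.sum_inner_products_le (R x) (s := Finset.univ)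
    have h4 : ‖⟪f, R x⟫_ℂ‖ ^ 2 ≤ ‖R x‖ ^ 2 := by
      refine pow_le_pow_left₀ (norm_nonneg _) ?_ 2
      refine (norm_inner_le_norm _ _).trans ?_
      nlinarith [norm_nonneg (R x), norm_nonneg f]
    linarith
  · have hx : |(⟪e j, κ • R (u j)⟫_ℂ).re| ≤ ‖κ‖ * ‖R (u j)‖ := by
      refine (Complex.abs_re_le_norm _).trans ?_
      refine (norm_inner_le_norm _ _).trans ?_
      rw [he.1 j, one_mul, hbw]
    have h1 := abs_le.1 hx
    nlinarith [sq_nonneg (‖κ‖ * ‖R (u j)‖ - 1), h1.1, h1.2]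

end

theorem main (h : S_HAD) : S_RES := by
  intro H _ _ _ n e u A K p κ z he hp1 hp2 hK hz hfd
  have hKJ : K = (J u).comp (F e) := by
    ext x
    rw [ContinuousLinearMap.comp_apply, J_apply, hK]
    exact Finset.sum_congr rfl fun j _ => by rw [F_apply]
  have hdet : (1 - κ • Gm (resolvent A z) e u).det ≠ 0 := by
    intro h0
    exact hfd (by rw [fd, h0, zero_mul])
  obtain ⟨N, hN1, hN2⟩ : ∃ N, (1 - κ • Gm (resolvent A z) e u) * N = 1 ∧
      N * (1 - κ • Gm (resolvent A z) e u) = 1 :=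
    ⟨_, Matrix.mul_nonsing_inv _ (isUnit_iff_ne_zero.2 hdet),
      Matrix.nonsing_inv_mul _ (isUnit_iff_ne_zero.2 hdet)⟩
  have hres := res_formula A (F e) (J u) κ z hz N (by rw [Mx_eq]; exact hN1)
    (by rw [Mx_eq]; exact hN2)
  rw [← hKJ] at hres
  refine ⟨hres.1, ?_⟩
  set R := resolvent A z with hR
  set S := resolvent (A + κ • K) z with hS
  set b : Fin n → ℝ := fun j => ‖κ‖ * ‖R (u j)‖ with hb
  have hSx : ∀ x, S x = R x + κ • R (J u (op N (F e (R x)))) := by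
    intro x
    rw [hres.2]
    rfl
  have hg : ∀ j, |-(⟪e j, κ • R (u j)⟫_ℂ).re| ≤ b j := by
    intro j
    rw [abs_neg]
    refine (Complex.abs_re_le_norm _).trans ?_
    refine (norm_inner_le_norm _ _).trans ?_
    rw [he.1 j, one_mul, norm_smul]
  have hexp : ‖Complex.exp (κ * (Gm R e u).trace)‖ ^ 2 =
      ∏ j, Real.exp (-(2 * (-(⟪e j, κ • R (u j)⟫_ℂ).re))) := by
    rw [Complex.norm_exp, ← Real.exp_nat_mul, ← Real.exp_sum]
    congr 1
    rw [Matrix.trace, Finset.mul_sum, Complex.re_sum, Finset.mul_sum]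
    refine Finset.sum_congr rfl fun j _ => ?_
    rw [Matrix.diag_apply, inner_smul_right]
    push_cast
    simp only [Gm, Matrix.of_apply]
    ring
  have key : ∀ x f : H, ‖f‖ ≤ 1 → ‖fd (Gm R e u) κ‖ * ‖⟪f, S x⟫_ℂ‖ ≤
      2 * ‖R x‖ * Real.exp (3 * ∑ j, b j ^ p) := by
    intro x f hf
    have h1 := had h R (u := u) he κ x f hf
    rw [det_bord R e u κ x f N hN1 hN2, ← hSx, norm_mul, mul_pow] at h1
    have h2 : (‖fd (Gm R e u) κ‖ * ‖⟪f, S x⟫_ℂ‖) ^ 2 ≤
        (2 * ‖R x‖ * Real.exp (3 * ∑ j, b j ^ p)) ^ 2 := by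
      have h3 : (‖fd (Gm R e u) κ‖ * ‖⟪f, S x⟫_ℂ‖) ^ 2 =
          (‖(1 - κ • Gm R e u).det‖ ^ 2 * ‖⟪f, S x⟫_ℂ‖ ^ 2) *
            ‖Complex.exp (κ * (Gm R e u).trace)‖ ^ 2 := by
        rw [fd, norm_mul]
        ring
      rw [h3, hexp]
      refine (mul_le_mul_of_nonneg_right h1
        (Finset.prod_nonneg fun j _ => (Real.exp_pos _).le)).trans ?_
      rw [mul_right_comm, ← Finset.prod_mul_distrib]
      have h4 : ∏ j, (1 + 2 * (-(⟪e j, κ • R (u j)⟫_ℂ).re) + 2 * (‖κ‖ * ‖R (u j)‖) ^ 2) *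
          Real.exp (-(2 * (-(⟪e j, κ • R (u j)⟫_ℂ).re))) ≤ ∏ j, Real.exp (6 * b j ^ p) := by
        refine Finset.prod_le_prod (fun j _ => ?_) fun j _ => scalar2 (hg j) hp1 hp2
        refine mul_nonneg ?_ (Real.exp_pos _).le
        have := (abs_le.1 (hg j))
        nlinarith [sq_nonneg (b j - 1), this.1]
      have h5 : ∏ j, Real.exp (6 * b j ^ p) = Real.exp (3 * ∑ j, b j ^ p) ^ 2 := by
        rw [← Real.exp_sum, ← Real.exp_nat_mul, ← Finset.mul_sum]
        congr 1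
        push_cast
        ring
      rw [h5] at h4
      refine (mul_le_mul_of_nonneg_right h4 (by positivity)).trans ?_
      nlinarith [sq_nonneg (Real.exp (3 * ∑ j, b j ^ p) * ‖R x‖)]
    exact le_of_sq_le_sq h2 (by positivity)
  have key2 : ∀ x, ‖(‖fd (Gm R e u) κ‖ : ℂ) • S x‖ ≤
      (2 * ‖R‖ * Real.exp (3 * ∑ j, b j ^ p)) * ‖x‖ := by
    intro x
    have h1 : ‖R x‖ ≤ ‖R‖ * ‖x‖ := R.le_opNorm x
    have h2 : ‖fd (Gm R e u) κ‖ * ‖S x‖ ≤ 2 * ‖R x‖ * Real.exp (3 * ∑ j, b j ^ p) := by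
      by_cases h0 : S x = 0
      · rw [h0, norm_zero, mul_zero]
        positivity
      · have h3 : ‖S x‖ ≠ 0 := norm_ne_zero_iff.2 h0
        have h4 := key x ((‖S x‖⁻¹ : ℂ) • S x) (by
          rw [norm_smul, norm_inv, Complex.norm_real, norm_norm, inv_mul_cancel₀ h3])
        rw [inner_smul_left, inner_self_eq_norm_sq_to_K] at h4
        have h5 : ‖(starRingEnd ℂ) ((‖S x‖ : ℂ)⁻¹) * ((‖S x‖ : ℂ)) ^ 2‖ = ‖S x‖ := by
          rw [norm_mul, RCLike.norm_conj, norm_inv, norm_pow, Complex.norm_real, norm_norm, sq,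
            ← mul_assoc, inv_mul_cancel₀ h3, one_mul]
        exact (h5 ▸ h4)
    rw [norm_smul, Complex.norm_real, norm_norm]
    refine h2.trans ?_
    have h3 := mul_le_mul_of_nonneg_right (mul_le_mul_of_nonneg_left h1 (zero_le_two (α := ℝ)))
      (Real.exp_pos (3 * ∑ j, b j ^ p)).le
    linarith
  have key3 := ContinuousLinearMap.opNorm_le_bound ((‖fd (Gm R e u) κ‖ : ℂ) • S)
    (by positivity) key2
  rw [norm_smul, Complex.norm_real, norm_norm] at key3
  linarith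

end Pool.Agent.R276.CP.Rs
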