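import Pool.Agent.R276.CP.Stm2

/-!
# Project CP, piece F: finite sections of operators in a Schatten class
-/

set_option autoImplicit false

namespace Pool.Agent.R276.CP.Sec

open MeasureTheory Set Metric Filter Topology
open scoped InnerProductSpace ENNReal NNReal

theorem main : S_SEC := by
  classical
  intro H _ _ _ K p hp0 hp2 hex
  obtain ⟨ι, b, hsum⟩ := hex
  -- square summability
  have hsq : Summable fun i => ‖K (b i)‖ ^ 2 := by
    refine Summable.of_norm_bounded_eventually (g := fun i => ‖K (b i)‖ ^ p) hsum ?_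
    have h0 := hsum.tendsto_cofinite_zero
    have h1 : ∀ᶠ i in cofinite, ‖K (b i)‖ ^ p < 1 := h0.eventually (gt_mem_nhds one_pos)
    filter_upwards [h1] with i hi
    have hn : 0 ≤ ‖K (b i)‖ := norm_nonneg _
    have hle : ‖K (b i)‖ ≤ 1 := by
      by_contra hlt
      rw [not_le] at hlt
      have := Real.one_lt_rpow hlt hp0
      linarith
    rw [Real.norm_of_nonneg (by positivity)]
    rcases hn.eq_or_lt with h | h
    · rw [← h, Real.zero_rpow hp0.ne']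
      norm_num
    · calc ‖K (b i)‖ ^ 2 = ‖K (b i)‖ ^ (2 : ℝ) := by norm_cast
        _ ≤ ‖K (b i)‖ ^ p := Real.rpow_le_rpow_of_exponent_ge h hle hp2
  -- the finite sets
  have hs : ∀ n : ℕ, ∃ s : Finset ι, ∀ t : Finset ι, Disjoint t s →
      ‖∑ i ∈ t, ‖K (b i)‖ ^ 2‖ < 1 / ((n : ℝ) + 1) := fun n =>
    summable_iff_vanishing_norm.1 hsq _ (by positivity)
  choose s hs using hs
  let Kn : ℕ → (H →L[ℂ] H) := fun n =>
    ∑ i ∈ s n, (innerSL ℂ (b i)).smulRight (K (b i))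
  have hKn : ∀ n x, Kn n x = ∑ i ∈ s n, ⟪b i, x⟫_ℂ • K (b i) := by
    intro n x
    simp [Kn]
  -- Cauchy-Schwarz
  have hCS : ∀ (x : H) (t : Finset ι), ‖∑ i ∈ t, ⟪b i, x⟫_ℂ • K (b i)‖ ≤
      ‖x‖ * Real.sqrt (∑ i ∈ t, ‖K (b i)‖ ^ 2) := by
    intro x t
    calc ‖∑ i ∈ t, ⟪b i, x⟫_ℂ • K (b i)‖ ≤ ∑ i ∈ t, ‖⟪b i, x⟫_ℂ‖ * ‖K (b i)‖ := by
          refine (norm_sum_le _ _).trans (le_of_eq ?_)
          exact Finset.sum_congr rfl fun i _ => norm_smul _ _
      _ ≤ Real.sqrt (∑ i ∈ t, ‖⟪b i, x⟫_ℂ‖ ^ 2) * Real.sqrt (∑ i ∈ t, ‖K (b i)‖ ^ 2) :=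
          Real.sum_mul_le_sqrt_mul_sqrt _ _ _
      _ ≤ ‖x‖ * Real.sqrt (∑ i ∈ t, ‖K (b i)‖ ^ 2) := by
          refine mul_le_mul_of_nonneg_right ?_ (Real.sqrt_nonneg _)
          rw [show ‖x‖ = Real.sqrt (‖x‖ ^ 2) from (Real.sqrt_sq (norm_nonneg x)).symm]
          exact Real.sqrt_le_sqrt (b.orthonormal.sum_inner_products_le x)
  have hdiff : ∀ n x, ‖(K - Kn n) x‖ ≤ Real.sqrt (1 / ((n : ℝ) + 1)) * ‖x‖ := by
    intro n x
    have h1 : HasSum (fun i => ⟪b i, x⟫_ℂ • K (b i)) (K x) := by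
      have h2 := (b.hasSum_repr x).mapL K
      simpa [HilbertBasis.repr_apply_apply] using h2
    have h3 : Tendsto (fun t : Finset ι => ‖∑ i ∈ t, ⟪b i, x⟫_ℂ • K (b i) - Kn n x‖) atTop
        (𝓝 ‖K x - Kn n x‖) := (h1.sub_const (Kn n x)).norm
    have h4 : ∀ᶠ t : Finset ι in atTop, ‖∑ i ∈ t, ⟪b i, x⟫_ℂ • K (b i) - Kn n x‖ ≤
        Real.sqrt (1 / ((n : ℝ) + 1)) * ‖x‖ := by
      filter_upwards [eventually_ge_atTop (s n)] with t ht
      have h5 : ∑ i ∈ t, ⟪b i, x⟫_ℂ • K (b i) - Kn n x =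
          ∑ i ∈ t \ s n, ⟪b i, x⟫_ℂ • K (b i) := by
        rw [hKn, ← Finset.sum_sdiff ht, add_sub_cancel_right]
      rw [h5]
      refine (hCS x _).trans ?_
      rw [mul_comm]
      refine mul_le_mul_of_nonneg_right (Real.sqrt_le_sqrt ?_) (norm_nonneg x)
      have h6 := hs n (t \ s n) Finset.sdiff_disjoint
      exact (le_abs_self _).trans h6.le
    exact le_of_tendsto h3 h4
  refine ⟨fun n => (s n).card, fun n j => b ((s n).equivFin.symm j),
    fun n j => K (b ((s n).equivFin.symm j)), ∑' i, ‖K (b i)‖ ^ p, Kn, ?_, ?_, ?_, ?_⟩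
  · intro n
    refine b.orthonormal.comp (fun j => ((s n).equivFin.symm j : ι)) ?_
    exact Subtype.val_injective.comp (s n).equivFin.symm.injective
  · intro n
    have h1 : ∑ j, ‖K (b ((s n).equivFin.symm j))‖ ^ p = ∑ i ∈ s n, ‖K (b i)‖ ^ p := by
      rw [← Finset.sum_coe_sort (s n) (fun i => ‖K (b i)‖ ^ p)]
      exact Equiv.sum_comp (s n).equivFin.symm (fun i : s n => ‖K (b i)‖ ^ p)
    show ∑ j, ‖K (b ((s n).equivFin.symm j))‖ ^ p ≤ _
    rw [h1]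
    exact hsum.sum_le_tsum _ (fun i _ => by positivity)
  · intro n x
    rw [hKn]
    rw [← Finset.sum_coe_sort (s n) (fun i => ⟪b i, x⟫_ℂ • K (b i))]
    exact (Equiv.sum_comp (s n).equivFin.symm
      (fun i : s n => ⟪b (i : ι), x⟫_ℂ • K (b (i : ι)))).symm
  · rw [tendsto_iff_norm_sub_tendsto_zero]
    have h1 : Tendsto (fun n : ℕ => Real.sqrt (1 / ((n : ℝ) + 1))) atTop (𝓝 0) := by
      have h2 := (tendsto_one_div_add_atTop_nhds_zero_nat (𝕜 := ℝ)).sqrt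
      simpa using h2
    refine squeeze_zero (fun n => norm_nonneg _) (fun n => ?_) h1
    rw [← norm_neg, neg_sub]
    exact ContinuousLinearMap.opNorm_le_bound _ (Real.sqrt_nonneg _) (hdiff n)

end Pool.Agent.R276.CP.Sec
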