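import Mathlib

/-!
# Project CP (MP_5ac32f_an, MP_49c4d9_an, MP_45cb44_an)

`N` normal with spectrum of upper Minkowski dimension less than two, `K` in a Schatten class `C_p`,
`p < 2`: for almost every coupling constant `κ` the logarithm of the resolvent of `N + κ K` is locally
integrable.  Statements of the independent parts; proofs in `NOTES.md`.
-/

set_option autoImplicit false

namespace Pool.Agent.R276.CP

open MeasureTheory Set Metric Filter Topology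
open scoped InnerProductSpace ENNReal NNReal

/-- `log⁺ (1 / x)` as an extended number, `∞` at `x = 0` (same as `Y283.NK.lm`) -/
noncomputable def lm (x : ℝ) : ℝ≥0∞ := if x = 0 then ⊤ else ENNReal.ofReal (Real.posLog x⁻¹)

/-- locally bounded mass and locally bounded logarithmic potential (same as `Y283.NK.LogBd`) -/
def LogBd (m : Measure ℂ) : Prop :=
  ∀ R : ℝ, ∃ C : ℝ≥0, m (ball (0:ℂ) R) ≤ C ∧
    ∀ s : ℂ, ∫⁻ t in ball (0:ℂ) R, lm ‖t - s‖ ∂m ≤ C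

/-- the upper Minkowski dimension of `E` is less than two (same as `Y271.CO.Thin`) -/
def Thin (E : Set ℂ) : Prop :=
  ∃ C ε : ℝ, 0 < ε ∧ ∀ δ : ℝ, 0 < δ → δ ≤ 1 →
    volume {z : ℂ | infDist z E ≤ δ} ≤ ENNReal.ofReal (C * δ ^ ε)

/-- the matrix `⟪e i, R (u j)⟫` -/
noncomputable def Gm {H : Type} [NormedAddCommGroup H] [InnerProductSpace ℂ H] {n : ℕ}
    (R : H →L[ℂ] H) (e u : Fin n → H) : Matrix (Fin n) (Fin n) ℂ :=
  Matrix.of fun i j => ⟪e i, R (u j)⟫_ℂ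

/-- the regularized determinant `det (1 - κ G) exp (κ tr G)` -/
noncomputable def fd {n : ℕ} (G : Matrix (Fin n) (Fin n) ℂ) (κ : ℂ) : ℂ :=
  (1 - κ • G).det * Complex.exp (κ * G.trace)

/-- Hadamard's inequality for the columns -/
def S_HAD : Prop :=
  ∀ (ι : Type) [Fintype ι] [DecidableEq ι] (M : Matrix ι ι ℂ),
    ‖M.det‖ ^ 2 ≤ ∏ j, ∑ i, ‖M i j‖ ^ 2

/-- UP: upper bound for the regularized determinant -/
def S_UP : Prop :=
  ∀ (H : Type) [NormedAddCommGroup H] [InnerProductSpace ℂ H] (n : ℕ) (e u : Fin n → H)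
    (R : H →L[ℂ] H) (p : ℝ) (κ : ℂ), Orthonormal ℂ e → 1 ≤ p → p ≤ 2 →
    ‖fd (Gm R e u) κ‖ ≤ Real.exp (3 * ∑ j, (‖κ‖ * ‖R (u j)‖) ^ p)

/-- RES: bound for the resolvent of a finite rank perturbation, uniform in the rank -/
def S_RES : Prop :=
  ∀ (H : Type) [NormedAddCommGroup H] [InnerProductSpace ℂ H] [CompleteSpace H] (n : ℕ)
    (e u : Fin n → H) (A K : H →L[ℂ] H) (p : ℝ) (κ z : ℂ), Orthonormal ℂ e → 1 ≤ p → p ≤ 2 →
    (∀ x, K x = ∑ j, ⟪e j, x⟫_ℂ • u j) → z ∈ resolventSet ℂ A →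
    fd (Gm (resolvent A z) e u) κ ≠ 0 →
    z ∈ resolventSet ℂ (A + κ • K) ∧
      ‖resolvent (A + κ • K) z‖ * ‖fd (Gm (resolvent A z) e u) κ‖ ≤
        2 * ‖resolvent A z‖ * Real.exp (3 * ∑ j, (‖κ‖ * ‖resolvent A z (u j)‖) ^ p)

/-- POT: the integral over `κ` of the logarithm of `q(κ) exp (τ κ)`, `q` a polynomial with
`q(0) = 1`, in terms of its maximum on a larger disc -/
def S_POT : Prop :=
  ∀ m : Measure ℂ, LogBd m → ∀ r : ℝ, 0 < r → ∃ C : ℝ≥0, ∀ (q : Polynomial ℂ) (τ : ℂ) (M : ℝ),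
    q.eval 0 = 1 → 0 ≤ M →
    (∀ κ : ℂ, ‖κ‖ ≤ 6 * r → ‖q.eval κ * Complex.exp (κ * τ)‖ ≤ Real.exp M) →
    ∫⁻ κ in ball (0:ℂ) r, lm ‖q.eval κ * Complex.exp (κ * τ)‖ ∂m ≤ C * ENNReal.ofReal (M + 1)

/-- LOC: for a normal operator with thin spectrum the norms of the vectors `(z - N)⁻¹ u` are locally
integrable with any exponent less than two, uniformly in `u` -/
def S_LOC : Prop :=
  ∀ (H : Type) [NormedAddCommGroup H] [InnerProductSpace ℂ H] [CompleteSpace H] (N : H →L[ℂ] H),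
    IsStarNormal N → Thin (spectrum ℂ N) → ∀ p : ℝ, 1 ≤ p → p < 2 → ∀ R : ℝ,
    ∃ C : ℝ≥0, ∀ u : H,
      ∫⁻ z in ball (0:ℂ) R, ENNReal.ofReal (‖resolvent N z u‖ ^ p) ≤
        C * ENNReal.ofReal (‖u‖ ^ p)

end Pool.Agent.R276.CP
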