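import Pool.Agent.R276.CP.Stm

/-!
# Project CP, second group of statements
-/

set_option autoImplicit false

namespace Pool.Agent.R276.CP

open MeasureTheory Set Metric Filter Topology
open scoped InnerProductSpace ENNReal NNReal

/-- finite sections of `K` converging in norm, with uniformly bounded `C_p` sums -/
def Sections {H : Type} [NormedAddCommGroup H] [InnerProductSpace ℂ H] (K : H →L[ℂ] H) (p : ℝ) :
    Prop :=
  ∃ (k : ℕ → ℕ) (e u : ∀ n, Fin (k n) → H) (S : ℝ) (Kn : ℕ → (H →L[ℂ] H)),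
    (∀ n, Orthonormal ℂ (e n)) ∧ (∀ n, ∑ j, ‖u n j‖ ^ p ≤ S) ∧
    (∀ n x, Kn n x = ∑ j, ⟪e n j, x⟫_ℂ • u n j) ∧ Tendsto Kn atTop (𝓝 K)

/-- SEC: operators in the Schatten class `C_p`, `p ≤ 2`, have such sections -/
def S_SEC : Prop :=
  ∀ (H : Type) [NormedAddCommGroup H] [InnerProductSpace ℂ H] [CompleteSpace H] (K : H →L[ℂ] H)
    (p : ℝ), 0 < p → p ≤ 2 →
    (∃ (ι : Type) (b : HilbertBasis ι ℂ H), Summable fun i => ‖K (b i)‖ ^ p) → Sections K p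

/-- FAT: local log-integrability of the resolvent of `A + κ K` for almost every `κ` -/
def S_FAT : Prop :=
  ∀ (H : Type) [NormedAddCommGroup H] [InnerProductSpace ℂ H] [CompleteSpace H] (A K : H →L[ℂ] H)
    (p : ℝ), 1 ≤ p → p ≤ 2 → Sections K p → ∀ R : ℝ,
    volume (spectrum ℂ A ∩ ball 0 R) = 0 →
    IntegrableOn (fun z : ℂ => Real.posLog ‖resolvent A z‖) (ball 0 R) →
    (∃ C : ℝ≥0, ∀ v : H, ∫⁻ z in ball (0:ℂ) R, ENNReal.ofReal (‖resolvent A z v‖ ^ p) ≤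
      C * ENNReal.ofReal (‖v‖ ^ p)) →
    ∀ m : Measure ℂ, LogBd m → ∀ r : ℝ, 0 < r →
    ∀ᵐ κ ∂(m.restrict (ball (0:ℂ) r)),
      volume (spectrum ℂ (A + κ • K) ∩ ball 0 R) = 0 ∧
      IntegrableOn (fun z : ℂ => Real.posLog ‖resolvent (A + κ • K) z‖) (ball 0 R)

end Pool.Agent.R276.CP
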