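import Pool.Agent.R276.CP.Stm

/-!
# Part CP-A: the upper bound for the regularized determinant
-/

set_option autoImplicit false

namespace Pool.Agent.R276.CP.Up

open MeasureTheory Set Metric Filter Topology Pool.Agent.R276.CP
open scoped InnerProductSpace ENNReal NNReal

/-- the scalar inequality -/
theorem scalar {x b p : ℝ} (hx : |x| ≤ b) (hp1 : 1 ≤ p) (hp2 : p ≤ 2) :
    (1 + 2 * x + b ^ 2) * Real.exp (-(2 * x)) ≤ Real.exp (6 * b ^ p) := by
  have hb : 0 ≤ b := (abs_nonneg x).trans hx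
  obtain ⟨hx1, hx2⟩ := abs_le.1 hx
  have hbp : 0 ≤ b ^ p := Real.rpow_nonneg hb p
  rcases le_total b 1 with h1 | h1
  · have h2 : b ^ 2 ≤ b ^ p := by
      rcases hb.eq_or_lt with h0 | h0
      · rw [← h0, Real.zero_rpow (by linarith)]
        norm_num
      · have := Real.rpow_le_rpow_of_exponent_ge h0 h1 hp2
        rwa [Real.rpow_two] at this
    have h3 : 1 + 2 * x + b ^ 2 ≤ Real.exp (2 * x + b ^ 2) := by
      have := Real.add_one_le_exp (2 * x + b ^ 2)
      linarith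
    calc (1 + 2 * x + b ^ 2) * Real.exp (-(2 * x))
        ≤ Real.exp (2 * x + b ^ 2) * Real.exp (-(2 * x)) :=
          mul_le_mul_of_nonneg_right h3 (Real.exp_pos _).le
      _ = Real.exp (b ^ 2) := by rw [← Real.exp_add]; ring_nf
      _ ≤ Real.exp (6 * b ^ p) := Real.exp_le_exp.2 (by linarith)
  · have h2 : b ≤ b ^ p := by
      have := Real.rpow_le_rpow_of_exponent_le h1 hp1
      rwa [Real.rpow_one] at this
    have h3 : 1 + 2 * x + b ^ 2 ≤ Real.exp (2 * b) := by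
      have h4 : 1 + b ≤ Real.exp b := by
        have := Real.add_one_le_exp b
        linarith
      have h5 : (1 + b) ^ 2 ≤ Real.exp b ^ 2 := pow_le_pow_left₀ (by linarith) h4 2
      rw [← Real.exp_nat_mul] at h5
      push_cast at h5
      nlinarith
    calc (1 + 2 * x + b ^ 2) * Real.exp (-(2 * x))
        ≤ Real.exp (2 * b) * Real.exp (-(2 * x)) :=
          mul_le_mul_of_nonneg_right h3 (Real.exp_pos _).le
      _ = Real.exp (2 * b - 2 * x) := by rw [← Real.exp_add]; ring_nf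
      _ ≤ Real.exp (6 * b ^ p) := Real.exp_le_exp.2 (by linarith)

theorem col {H : Type} [NormedAddCommGroup H] [InnerProductSpace ℂ H] {n : ℕ}
    {e : Fin n → H} (he : Orthonormal ℂ e) (w : H) (j : Fin n) :
    ∑ i, ‖(1 : Matrix (Fin n) (Fin n) ℂ) i j - ⟪e i, w⟫_ℂ‖ ^ 2 ≤
      1 - 2 * (⟪e j, w⟫_ℂ).re + ‖w‖ ^ 2 := by
  have h1 : ∀ i, ‖(1 : Matrix (Fin n) (Fin n) ℂ) i j - ⟪e i, w⟫_ℂ‖ ^ 2 =
      (if i = j then 1 - 2 * (⟪e j, w⟫_ℂ).re else 0) + ‖⟪e i, w⟫_ℂ‖ ^ 2 := by
    intro i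
    rw [Matrix.one_apply]
    split_ifs with h
    · subst h
      rw [Complex.sq_norm, Complex.sq_norm, Complex.normSq_apply, Complex.normSq_apply]
      simp only [Complex.sub_re, Complex.one_re, Complex.sub_im, Complex.one_im]
      ring
    · rw [zero_sub, norm_neg, zero_add]
  rw [Finset.sum_congr rfl fun i _ => h1 i, Finset.sum_add_distrib, Finset.sum_ite_eq' Finset.univ j
    fun _ => 1 - 2 * (⟪e j, w⟫_ℂ).re]
  rw [if_pos (Finset.mem_univ j)]
  have h2 := he.sum_inner_products_le w (s := Finset.univ)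
  linarith

theorem main (h : S_HAD) : S_UP := by
  intro H _ _ n e u R p κ he hp1 hp2
  have hκ : ∀ i j, κ * Gm R e u i j = ⟪e i, κ • R (u j)⟫_ℂ := by
    intro i j
    rw [inner_smul_right]
    rfl
  set b : Fin n → ℝ := fun j => ‖κ‖ * ‖R (u j)‖ with hb
  have hbw : ∀ j, ‖κ • R (u j)‖ = b j := fun j => norm_smul _ _
  have hg : ∀ j, |-(⟪e j, κ • R (u j)⟫_ℂ).re| ≤ b j := by
    intro j
    rw [abs_neg]
    refine (Complex.abs_re_le_norm _).trans ?_
    refine (norm_inner_le_norm _ _).trans ?_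
    rw [he.1 j, one_mul, hbw]
  have hdet : ‖(1 - κ • Gm R e u).det‖ ^ 2 ≤
      ∏ j, (1 + 2 * (-(⟪e j, κ • R (u j)⟫_ℂ).re) + b j ^ 2) := by
    refine (h (Fin n) _).trans ?_
    refine Finset.prod_le_prod (fun j _ => Finset.sum_nonneg fun i _ => by positivity)
      fun j _ => ?_
    have h1 := col he (κ • R (u j)) j
    rw [hbw] at h1
    have h2 : ∀ i, (1 - κ • Gm R e u) i j =
        (1 : Matrix (Fin n) (Fin n) ℂ) i j - ⟪e i, κ • R (u j)⟫_ℂ := by
      intro i
      rw [Matrix.sub_apply, Matrix.smul_apply, smul_eq_mul, hκ]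
    simp_rw [h2]
    linarith
  have hexp : ‖Complex.exp (κ * (Gm R e u).trace)‖ ^ 2 =
      ∏ j, Real.exp (-(2 * (-(⟪e j, κ • R (u j)⟫_ℂ).re))) := by
    rw [Complex.norm_exp, ← Real.exp_nat_mul, ← Real.exp_sum]
    congr 1
    rw [Matrix.trace, Finset.mul_sum, Complex.re_sum, Finset.mul_sum]
    refine Finset.sum_congr rfl fun j _ => ?_
    rw [Matrix.diag_apply, hκ]
    push_cast
    ring
  have hsq : ‖fd (Gm R e u) κ‖ ^ 2 ≤ Real.exp (3 * ∑ j, b j ^ p) ^ 2 := by
    rw [fd, norm_mul, mul_pow, hexp]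
    refine (mul_le_mul_of_nonneg_right hdet
      (Finset.prod_nonneg fun j _ => (Real.exp_pos _).le)).trans ?_
    rw [← Finset.prod_mul_distrib, ← Real.exp_nat_mul]
    have h6 : ((2 : ℕ) : ℝ) * (3 * ∑ j, b j ^ p) = ∑ j, 6 * b j ^ p := by
      rw [← Finset.mul_sum]
      push_cast
      ring
    rw [h6, Real.exp_sum]
    refine Finset.prod_le_prod (fun j _ => ?_) fun j _ => scalar (hg j) hp1 hp2
    refine mul_nonneg ?_ (Real.exp_pos _).le
    have := (abs_le.1 (hg j))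
    nlinarith [sq_nonneg (b j - 1), this.1]
  exact le_of_sq_le_sq hsq (Real.exp_pos _).le

end Pool.Agent.R276.CP.Up
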